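import Mathlib
import Pool.Agent.TH888.W2.Weak2

/-!
Linear forms in logarithms with coefficients composed of given primes.
-/

set_option autoImplicit false

namespace Pool.Agent.TH888.W2

open Finset

/-- the weak theorem for an arbitrary finite index type -/
theorem baker_fin (ι : Type) [Fintype ι] : ∃ C κ : ℕ, ∀ (p : ℕ) [Fact p.Prime], ∀ S : ℕ, p ≤ S →
    ∀ (α : ι → ℕ) (b : ι → ℤ) (M : ℕ) (u : ι → (ZMod (p ^ M))ˣ),
      (∀ i, (u i : ZMod (p ^ M)) = α i) → (∀ i, 0 < α i) →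
      (∀ i, α i ≤ 2 ^ S) → (∀ i, |b i| ≤ 2 ^ S) → ∏ i, (α i : ℚ) ^ (b i) ≠ 1 →
      ∏ i, (u i) ^ (b i) = 1 → M ≤ C * S ^ κ := by
  obtain ⟨C, κ, h⟩ := weakBaker_all (Fintype.card ι)
  refine ⟨C, κ, ?_⟩
  intro p hp S hpS α b M u hu hα0 hα hb hne hrel
  let e := (Fintype.equivFin ι).symm
  refine h p S hpS (fun i => α (e i)) (fun i => b (e i)) M (fun i => u (e i)) (fun i => hu _)
    (fun i => hα0 _) (fun i => hα _) (fun i => hb _) ?_ ?_
  · rw [Equiv.prod_comp e (fun i => (α i : ℚ) ^ (b i))]; exact hne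
  · rw [Equiv.prod_comp e (fun i => (u i) ^ (b i))]; exact hrel

/-- `n` is positive and all its prime factors lie in `P` -/
def Su (P : Finset ℕ) (n : ℕ) : Prop := n ≠ 0 ∧ ∀ l : ℕ, l.Prime → l ∣ n → l ∈ P

theorem Su.prod {P : Finset ℕ} {n : ℕ} (h : Su P n) : ∏ l ∈ P, l ^ n.factorization l = n := by
  have h1 := Nat.prod_factorization_pow_eq_self h.1
  have h2 : n.factorization.support ⊆ P := by
    intro l hl
    rw [Nat.support_factorization, Nat.mem_primeFactors] at hl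
    exact h.2 l hl.1 hl.2.1
  rw [Finsupp.prod_of_support_subset _ h2 _ (fun i _ => pow_zero _)] at h1
  exact h1

theorem baker_su (P : Finset ℕ) : ∃ C κ : ℕ, ∀ p T : ℕ, p.Prime → p ≤ T → (∀ l ∈ P, l ≤ 2 ^ T) →
    ∀ u v x y i j M : ℕ, Su P u → Su P v → 0 < x → 0 < y → ¬ p ∣ u → ¬ p ∣ v → ¬ p ∣ x → ¬ p ∣ y →
      x ≤ 2 ^ T → y ≤ 2 ^ T → (∀ l, 2 * u.factorization l ≤ 2 ^ T) →
      (∀ l, 2 * v.factorization l ≤ 2 ^ T) → 2 * i ≤ 2 ^ T → 2 * j ≤ 2 ^ T →
      u * x ^ i ≠ v * y ^ j →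
      (p : ℤ) ^ M ∣ ((u * x ^ i : ℕ) : ℤ) ^ 2 - ((v * y ^ j : ℕ) : ℤ) ^ 2 → M ≤ C * T ^ κ := by
  classical
  obtain ⟨C, κ, h⟩ := baker_fin ({l // l ∈ P} ⊕ Bool)
  refine ⟨C, κ, ?_⟩
  intro p T hp hpT hPT u v x y i j M hu hv hx hy hpu hpv hpx hpy hxT hyT huT hvT hiT hjT hne hd
  have : Fact p.Prime := ⟨hp⟩
  have hco : ∀ n : ℕ, ¬ p ∣ n → Nat.Coprime n (p ^ M) := fun n hn =>
    (((Nat.Prime.coprime_iff_not_dvd hp).mpr hn).symm).pow_right M
  obtain ⟨V, hV⟩ : ∃ V : ℕ → ℕ, V = fun n => if p ∣ n then 1 else n := ⟨_, rfl⟩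
  have hV1 : ∀ n, p ∣ n → V n = 1 := fun n hn => by rw [hV]; simp only [if_pos hn]
  have hV2 : ∀ n, ¬ p ∣ n → V n = n := fun n hn => by rw [hV]; simp only [if_neg hn]
  have hVp : ∀ n, ¬ p ∣ V n := by
    intro n
    by_cases hn : p ∣ n
    · rw [hV1 n hn]; exact hp.one_lt.ne' ∘ Nat.dvd_one.mp
    · rw [hV2 n hn]; exact hn
  have hV0 : ∀ n, 0 < V n := fun n => Nat.pos_of_ne_zero fun h0 => hVp n (by rw [h0]; exact dvd_zero p)
  obtain ⟨U, hU⟩ : ∃ U : ℕ → (ZMod (p ^ M))ˣ, ∀ n, ¬ p ∣ n → ((U n : (ZMod (p ^ M))ˣ) : ZMod (p ^ M)) = n :=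
    ⟨fun n => if h : ¬ p ∣ n then ZMod.unitOfCoprime n (hco n h) else 1, fun n hn => by
      simp only [dif_pos hn, ZMod.coe_unitOfCoprime]⟩
  have hVu : ∀ n : ℕ, ¬ p ∣ n → n ≠ 0 → ∀ l, (V l) ^ n.factorization l = l ^ n.factorization l := by
    intro n hn hn0 l
    by_cases hl : p ∣ l
    · have h0 : n.factorization l = 0 := by
        by_contra hne0
        have h1 : l ∈ n.factorization.support := Finsupp.mem_support_iff.2 hne0
        rw [Nat.support_factorization, Nat.mem_primeFactors] at h1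
        exact hn (((Nat.prime_dvd_prime_iff_eq hp h1.1).1 hl) ▸ h1.2.1)
      rw [h0, pow_zero, pow_zero]
    · rw [hV2 l hl]
  refine h p T hpT (Sum.elim (fun l => V (l : ℕ)) (fun t => if t then x else y))
    (Sum.elim (fun l => 2 * ((u.factorization (l : ℕ) : ℤ) - v.factorization (l : ℕ)))
      (fun t => if t then 2 * (i : ℤ) else -(2 * (j : ℤ)))) M
    (Sum.elim (fun l => U (V (l : ℕ))) (fun t => if t then U x else U y)) ?_ ?_ ?_ ?_ ?_ ?_
  · rintro (l | t)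
    · exact hU _ (hVp _)
    · cases t
      · simpa using hU _ hpy
      · simpa using hU _ hpx
  · rintro (l | t)
    · exact hV0 _
    · cases t
      · simpa using hy
      · simpa using hx
  · rintro (l | t)
    · simp only [Sum.elim_inl]
      by_cases hl : p ∣ (l : ℕ)
      · rw [hV1 _ hl]; exact Nat.one_le_two_pow
      · rw [hV2 _ hl]; exact hPT _ l.2
    · cases t
      · simpa using hyT
      · simpa using hxT
  · rintro (l | t)
    · simp only [Sum.elim_inl]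
      have h1 : 2 * ((u.factorization (l : ℕ) : ℕ) : ℤ) ≤ 2 ^ T := by exact_mod_cast huT _
      have h2 : 2 * ((v.factorization (l : ℕ) : ℕ) : ℤ) ≤ 2 ^ T := by exact_mod_cast hvT _
      have h3 : (0 : ℤ) ≤ ((u.factorization (l : ℕ) : ℕ) : ℤ) := Int.natCast_nonneg _
      have h4 : (0 : ℤ) ≤ ((v.factorization (l : ℕ) : ℕ) : ℤ) := Int.natCast_nonneg _
      rw [abs_le]
      constructor <;> linarith
    · have h1 : 2 * (i : ℤ) ≤ 2 ^ T := by exact_mod_cast hiT
      have h2 : 2 * (j : ℤ) ≤ 2 ^ T := by exact_mod_cast hjT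
      have h3 : (0 : ℤ) ≤ (i : ℤ) := Int.natCast_nonneg _
      have h4 : (0 : ℤ) ≤ (j : ℤ) := Int.natCast_nonneg _
      cases t
      · simp only [Sum.elim_inr, Bool.false_eq_true, if_false]
        rw [abs_le]; constructor <;> linarith
      · simp only [Sum.elim_inr, if_true]
        rw [abs_le]; constructor <;> linarith
  · -- the rational number
    rw [Fintype.prod_sum_type, Fintype.prod_bool]
    simp only [Sum.elim_inl, Sum.elim_inr, if_true, Bool.false_eq_true, if_false]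
    rw [Finset.prod_coe_sort P (fun l => ((V l : ℕ) : ℚ) ^ (2 * ((u.factorization l : ℤ) -
      v.factorization l)))]
    have hxQ : (x : ℚ) ≠ 0 := by exact_mod_cast hx.ne'
    have hyQ : (y : ℚ) ≠ 0 := by exact_mod_cast hy.ne'
    have huQ : (u : ℚ) ≠ 0 := by exact_mod_cast hu.1
    have hvQ : (v : ℚ) ≠ 0 := by exact_mod_cast hv.1
    have e1 : ∏ l ∈ P, ((V l : ℕ) : ℚ) ^ (2 * ((u.factorization l : ℤ) - v.factorization l)) =
        (u : ℚ) ^ 2 / (v : ℚ) ^ 2 := by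
      have e2 : ∀ l ∈ P, ((V l : ℕ) : ℚ) ^ (2 * ((u.factorization l : ℤ) - v.factorization l)) =
          (((l ^ u.factorization l : ℕ) : ℚ)) ^ 2 / (((l ^ v.factorization l : ℕ) : ℚ)) ^ 2 := by
        intro l _
        have hl0 : ((V l : ℕ) : ℚ) ≠ 0 := by exact_mod_cast (hV0 l).ne'
        rw [← hVu u hpu hu.1 l, ← hVu v hpv hv.1 l, mul_sub, zpow_sub₀ hl0]
        push_cast
        rw [← pow_mul, ← pow_mul, mul_comm (u.factorization l) 2, mul_comm (v.factorization l) 2]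
        norm_cast
      rw [Finset.prod_congr rfl e2, Finset.prod_div_distrib, Finset.prod_pow, Finset.prod_pow,
        ← Nat.cast_prod, ← Nat.cast_prod, hu.prod, hv.prod]
    rw [e1]
    intro h1
    have h2 : (x : ℚ) ^ (2 * (i : ℤ)) = ((x : ℚ) ^ i) ^ 2 := by
      rw [← pow_mul, mul_comm i 2]; norm_cast
    have h3 : (y : ℚ) ^ (-(2 * (j : ℤ))) = (((y : ℚ) ^ j) ^ 2)⁻¹ := by
      rw [zpow_neg, ← pow_mul, mul_comm j 2]; norm_cast
    rw [h2, h3] at h1
    have h4 : ((u : ℚ) * (x : ℚ) ^ i) ^ 2 = ((v : ℚ) * (y : ℚ) ^ j) ^ 2 := by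
      field_simp at h1
      linear_combination h1
    have h5 : (u * x ^ i) ^ 2 = (v * y ^ j) ^ 2 := by exact_mod_cast h4
    exact hne (Nat.pow_left_injective (by norm_num : (2 : ℕ) ≠ 0) h5)
  · -- the unit
    rw [Fintype.prod_sum_type, Fintype.prod_bool]
    simp only [Sum.elim_inl, Sum.elim_inr, if_true, Bool.false_eq_true, if_false]
    rw [Finset.prod_coe_sort P (fun l => (U (V l)) ^ (2 * ((u.factorization l : ℤ) -
      v.factorization l)))]
    have e1 : ∏ l ∈ P, (U (V l)) ^ (2 * ((u.factorization l : ℤ) - v.factorization l)) =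
        (∏ l ∈ P, (U (V l)) ^ u.factorization l) ^ 2 *
          ((∏ l ∈ P, (U (V l)) ^ v.factorization l) ^ 2)⁻¹ := by
      rw [← Finset.prod_pow, ← Finset.prod_pow, ← Finset.prod_inv_distrib, ← Finset.prod_mul_distrib]
      refine Finset.prod_congr rfl fun l _ => ?_
      rw [mul_sub, zpow_sub, ← pow_mul, ← pow_mul, mul_comm (u.factorization l) 2,
        mul_comm (v.factorization l) 2]
      norm_cast
    have e4 : ∀ n : ℕ, ¬ p ∣ n → Su P n →
        ((∏ l ∈ P, (U (V l)) ^ n.factorization l : (ZMod (p ^ M))ˣ) : ZMod (p ^ M)) = n := by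
      intro n hn hsn
      rw [Units.coe_prod]
      conv_rhs => rw [← hsn.prod]
      push_cast
      refine Finset.prod_congr rfl fun l _ => ?_
      rw [hU _ (hVp l)]
      have := hVu n hn hsn.1 l
      exact_mod_cast congrArg (Nat.cast (R := ZMod (p ^ M))) this
    have h2 : (U x) ^ (2 * (i : ℤ)) = ((U x) ^ i) ^ 2 := by
      rw [← pow_mul, mul_comm i 2]; norm_cast
    have h3 : (U y) ^ (-(2 * (j : ℤ))) = (((U y) ^ j) ^ 2)⁻¹ := by
      rw [zpow_neg, ← pow_mul, mul_comm j 2]; norm_cast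
    rw [e1, h2, h3]
    have h4 : ((∏ l ∈ P, (U (V l)) ^ u.factorization l) * (U x) ^ i) ^ 2 =
        ((∏ l ∈ P, (U (V l)) ^ v.factorization l) * (U y) ^ j) ^ 2 := by
      apply Units.ext
      simp only [Units.val_pow_eq_pow_val, Units.val_mul]
      rw [e4 u hpu hu, e4 v hpv hv, hU x hpx, hU y hpy]
      have h5 : (((((u * x ^ i : ℕ) : ℤ) ^ 2 - ((v * y ^ j : ℕ) : ℤ) ^ 2 : ℤ)) : ZMod (p ^ M)) = 0 := by
        rw [ZMod.intCast_zmod_eq_zero_iff_dvd]
        exact_mod_cast hd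
      rw [Int.cast_sub, sub_eq_zero] at h5
      push_cast at h5
      exact h5
    rw [mul_mul_mul_comm, ← mul_pow, ← mul_inv, ← mul_pow, h4, mul_inv_cancel]

end Pool.Agent.TH888.W2
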