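import Mathlib
import Pool.Agent.TH888.W2.SBak
import Pool.Agent.TH888.B1.Bak

/-!
Bounds for the exponents in `a x^l + b y^m = c w^k` with coefficients composed of given primes.
-/

set_option autoImplicit false

namespace Pool.Agent.TH888.W2

open Finset

theorem Su.fact_le {P : Finset ℕ} {n : ℕ} (h : Su P n) (q : ℕ) :
    n.factorization q ≤ ∑ l ∈ P, n.factorization l := by
  by_cases h0 : n.factorization q = 0
  · rw [h0]; exact Nat.zero_le _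
  · have h1 : q ∈ n.factorization.support := Finsupp.mem_support_iff.2 h0
    rw [Nat.support_factorization, Nat.mem_primeFactors] at h1
    exact Finset.single_le_sum (f := fun l => n.factorization l) (fun _ _ => Nat.zero_le _)
      (h.2 q h1.1 h1.2.1)

theorem Su.le_pow {P : Finset ℕ} {n T D : ℕ} (h : Su P n) (hP : ∀ q ∈ P, q ≤ 2 ^ T)
    (hD : ∀ q, n.factorization q ≤ D) : n ≤ 2 ^ (T * D * P.card) := by
  calc n = ∏ l ∈ P, l ^ n.factorization l := h.prod.symm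
    _ ≤ ∏ _l ∈ P, 2 ^ (T * D) := by
        refine Finset.prod_le_prod' fun l hl => ?_
        calc l ^ n.factorization l ≤ (2 ^ T) ^ n.factorization l := Nat.pow_le_pow_left (hP l hl) _
          _ ≤ (2 ^ T) ^ D := Nat.pow_le_pow_right (by positivity) (hD l)
          _ = _ := by rw [← pow_mul]
    _ = _ := by rw [Finset.prod_const, ← pow_mul]

theorem su_exps_nat (P : Finset ℕ) : ∃ C₀ κ : ℕ, ∀ A B C X Y W T l m k : ℕ, 1 ≤ T →
    (∀ q ∈ P, q ≤ T) → 0 < l → 0 < m → 0 < k → Su P A → Su P B → Su P C →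
    Nat.Coprime (A * X) (B * Y) → Nat.Coprime (A * X) (C * W) → Nat.Coprime (B * Y) (C * W) →
    ((A * X ^ l : ℕ) : ℤ) ∣ ((B * Y ^ m : ℕ) : ℤ) ^ 2 - ((C * W ^ k : ℕ) : ℤ) ^ 2 →
    ((B * Y ^ m : ℕ) : ℤ) ∣ ((A * X ^ l : ℕ) : ℤ) ^ 2 - ((C * W ^ k : ℕ) : ℤ) ^ 2 →
    ((C * W ^ k : ℕ) : ℤ) ∣ ((A * X ^ l : ℕ) : ℤ) ^ 2 - ((B * Y ^ m : ℕ) : ℤ) ^ 2 →
    C * W ^ k ≤ A * X ^ l + B * Y ^ m → X ≤ 2 ^ T → Y ≤ 2 ^ T → W ≤ 2 ^ T → 0 < X → 0 < Y → 0 < W →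
    (∃ p : ℕ, p.Prime ∧ p ≤ T ∧ p ∣ X) → (∃ p : ℕ, p.Prime ∧ p ≤ T ∧ p ∣ Y) →
    l ≤ C₀ * T ^ κ ∧ m ≤ C₀ * T ^ κ ∧ (∀ q, A.factorization q ≤ C₀ * T ^ κ) ∧
      (∀ q, B.factorization q ≤ C₀ * T ^ κ) ∧ (∀ q, C.factorization q ≤ C₀ * T ^ κ) ∧
      (2 ≤ W → k ≤ C₀ * T ^ κ) := by
  obtain ⟨C₁, κ₁, hB⟩ := baker_su P
  obtain ⟨s, hs⟩ : ∃ s, s = P.card := ⟨_, rfl⟩
  obtain ⟨K₁, hK₁⟩ : ∃ K₁, K₁ = (4 * s + 3) * C₁ + 1 := ⟨_, rfl⟩
  obtain ⟨L₀, hL₀⟩ := Pool.Agent.TH888.B1.growth (4 * K₁) (κ₁ + 1)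
  refine ⟨K₁ * (L₀ + 1) ^ (κ₁ + 1), κ₁ + 1, ?_⟩
  intro A B C X Y W T l m k hT hPT hl hm hk hA hBs hC hab hac hbc h1 h2 h3 hsz hX hY hW hX0 hY0 hW0
    ⟨p, hp, hpT, hpX⟩ ⟨p', hp', hpT', hpY⟩
  have nd : ∀ {q x y : ℕ}, q.Prime → Nat.Coprime x y → q ∣ x → ¬ q ∣ y := by
    intro q x y hq hxy hx hy
    have := Nat.dvd_gcd hx hy
    rw [hxy.gcd_eq_one] at this
    exact hq.one_lt.ne' (Nat.dvd_one.mp this)
  -- the exponent of `W`
  obtain ⟨k', hk', hcase⟩ : ∃ k' : ℕ, W ^ k' = W ^ k ∧ ((2 ≤ W ∧ k' = k) ∨ k' = 0) := by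
    rcases Nat.lt_or_ge W 2 with h | h
    · have : W = 1 := by omega
      subst this
      exact ⟨0, by simp, Or.inr rfl⟩
    · exact ⟨k, rfl, Or.inl ⟨h, rfl⟩⟩
  rw [← hk'] at h1 h2 h3 hsz
  obtain ⟨E, hE⟩ : ∃ E, E = l + m + k' + ((∑ q ∈ P, A.factorization q) +
    (∑ q ∈ P, B.factorization q) + ∑ q ∈ P, C.factorization q) := ⟨_, rfl⟩
  have hAE : ∀ q, A.factorization q ≤ E := fun q => (hA.fact_le q).trans (by omega)
  have hBE : ∀ q, B.factorization q ≤ E := fun q => (hBs.fact_le q).trans (by omega)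
  have hCE : ∀ q, C.factorization q ≤ E := fun q => (hC.fact_le q).trans (by omega)
  obtain ⟨T', hT'⟩ : ∃ T', T' = max T (Nat.log 2 (2 * E) + 1) := ⟨_, rfl⟩
  have hTT : T ≤ T' := by rw [hT']; exact le_max_left _ _
  have hET : 2 * E ≤ 2 ^ T' := by
    have h4 : 2 * E < 2 ^ (Nat.log 2 (2 * E) + 1) := Nat.lt_pow_succ_log_self (by norm_num) _
    exact h4.le.trans (Nat.pow_le_pow_right (by norm_num) (by rw [hT']; exact le_max_right _ _))
  have h2T : (2 : ℕ) ^ T ≤ 2 ^ T' := Nat.pow_le_pow_right (by norm_num) hTT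
  have hP2 : ∀ q ∈ P, q ≤ 2 ^ T := fun q hq => (hPT q hq).trans Nat.lt_two_pow_self.le
  obtain ⟨D, hD⟩ : ∃ D, D = C₁ * T' ^ κ₁ := ⟨_, rfl⟩
  have key : ∀ q u v x y i j M : ℕ, q.Prime → q ≤ T → Su P u → Su P v → 0 < x → 0 < y → ¬ q ∣ u →
      ¬ q ∣ v → ¬ q ∣ x → ¬ q ∣ y → x ≤ 2 ^ T → y ≤ 2 ^ T → (∀ r, u.factorization r ≤ E) →
      (∀ r, v.factorization r ≤ E) → i ≤ E → j ≤ E → u * x ^ i ≠ v * y ^ j →
      (q : ℤ) ^ M ∣ ((u * x ^ i : ℕ) : ℤ) ^ 2 - ((v * y ^ j : ℕ) : ℤ) ^ 2 → M ≤ D := by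
    intro q u v x y i j M hq hqT hu hv hx hy g1 g2 g3 g4 g5 g6 g7 g8 g9 g10 g11 g12
    rw [hD]
    exact hB q T' hq (hqT.trans hTT) (fun r hr => (hP2 r hr).trans h2T) u v x y i j M hu hv hx hy
      g1 g2 g3 g4 (g5.trans h2T) (g6.trans h2T)
      (fun r => (Nat.mul_le_mul_left 2 (g7 r)).trans hET)
      (fun r => (Nat.mul_le_mul_left 2 (g8 r)).trans hET)
      ((Nat.mul_le_mul_left 2 g9).trans hET) ((Nat.mul_le_mul_left 2 g10).trans hET) g11 g12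
  -- nondegeneracy
  have nBC : B * Y ^ m ≠ C * W ^ k' := by
    intro he
    have g1 : p' ∣ C * W ^ k' := by
      rw [← he]; exact Dvd.dvd.mul_left (dvd_pow hpY hm.ne') _
    have g2 := nd hp' hbc (Dvd.dvd.mul_left hpY B)
    rcases (Nat.Prime.dvd_mul hp').mp g1 with g3 | g3
    · exact g2 (Dvd.dvd.mul_right g3 _)
    · exact g2 (Dvd.dvd.mul_left (hp'.dvd_of_dvd_pow g3) _)
  have nAC : A * X ^ l ≠ C * W ^ k' := by
    intro he
    have g1 : p ∣ C * W ^ k' := by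
      rw [← he]; exact Dvd.dvd.mul_left (dvd_pow hpX hl.ne') _
    have g2 := nd hp hac (Dvd.dvd.mul_left hpX A)
    rcases (Nat.Prime.dvd_mul hp).mp g1 with g3 | g3
    · exact g2 (Dvd.dvd.mul_right g3 _)
    · exact g2 (Dvd.dvd.mul_left (hp.dvd_of_dvd_pow g3) _)
  have nAB : A * X ^ l ≠ B * Y ^ m := by
    intro he
    have g1 : p ∣ B * Y ^ m := by
      rw [← he]; exact Dvd.dvd.mul_left (dvd_pow hpX hl.ne') _
    have g2 := nd hp hab (Dvd.dvd.mul_left hpX A)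
    rcases (Nat.Prime.dvd_mul hp).mp g1 with g3 | g3
    · exact g2 (Dvd.dvd.mul_right g3 _)
    · exact g2 (Dvd.dvd.mul_left (hp.dvd_of_dvd_pow g3) _)
  -- splitting the non-divisibility
  have sp : ∀ {q u v x y : ℕ}, q.Prime → Nat.Coprime (u * x) (v * y) → q ∣ u * x →
      ¬ q ∣ v ∧ ¬ q ∣ y := by
    intro q u v x y hq hc hd
    have g := nd hq hc hd
    exact ⟨fun h => g (Dvd.dvd.mul_right h _), fun h => g (Dvd.dvd.mul_left h _)⟩
  have keyA : ∀ q M : ℕ, q.Prime → q ≤ T → q ∣ A * X → q ^ M ∣ A * X ^ l → M ≤ D := by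
    intro q M hq hqT hd hM
    obtain ⟨g1, g3⟩ := sp hq hab hd
    obtain ⟨g2, g4⟩ := sp hq hac hd
    refine key q B C Y W m k' M hq hqT hBs hC hY0 hW0 g1 g2 g3 g4 hY hW hBE hCE (by omega)
      (by omega) nBC ?_
    exact dvd_trans (by exact_mod_cast hM) h1
  have keyB : ∀ q M : ℕ, q.Prime → q ≤ T → q ∣ B * Y → q ^ M ∣ B * Y ^ m → M ≤ D := by
    intro q M hq hqT hd hM
    obtain ⟨g1, g3⟩ := sp hq hab.symm hd
    obtain ⟨g2, g4⟩ := sp hq hbc hd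
    refine key q A C X W l k' M hq hqT hA hC hX0 hW0 g1 g2 g3 g4 hX hW hAE hCE (by omega)
      (by omega) nAC ?_
    exact dvd_trans (by exact_mod_cast hM) h2
  have keyC : ∀ q M : ℕ, q.Prime → q ≤ T → q ∣ C * W → q ^ M ∣ C * W ^ k' → M ≤ D := by
    intro q M hq hqT hd hM
    obtain ⟨g1, g3⟩ := sp hq hac.symm hd
    obtain ⟨g2, g4⟩ := sp hq hbc.symm hd
    refine key q A B X Y l m M hq hqT hA hBs hX0 hY0 g1 g2 g3 g4 hX hY hAE hBE (by omega)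
      (by omega) nAB ?_
    exact dvd_trans (by exact_mod_cast hM) h3
  have hlD : l ≤ D := keyA p l hp hpT (Dvd.dvd.mul_left hpX A)
    (Dvd.dvd.mul_left (pow_dvd_pow_of_dvd hpX l) A)
  have hmD : m ≤ D := keyB p' m hp' hpT' (Dvd.dvd.mul_left hpY B)
    (Dvd.dvd.mul_left (pow_dvd_pow_of_dvd hpY m) B)
  have vf : ∀ n : ℕ, Su P n → (∀ q M : ℕ, q.Prime → q ≤ T → q ∣ n → q ^ M ∣ n → M ≤ D) →
      ∀ q, n.factorization q ≤ D := by
    intro n hn g q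
    by_cases h0 : n.factorization q = 0
    · rw [h0]; exact Nat.zero_le _
    · have g1 : q ∈ n.factorization.support := Finsupp.mem_support_iff.2 h0
      rw [Nat.support_factorization, Nat.mem_primeFactors] at g1
      exact g q _ g1.1 (hPT q (hn.2 q g1.1 g1.2.1)) g1.2.1 (Nat.ordProj_dvd n q)
  have hAD : ∀ q, A.factorization q ≤ D := vf A hA fun q M hq hqT hd hM =>
    keyA q M hq hqT (Dvd.dvd.mul_right hd _) (Dvd.dvd.mul_right hM _)
  have hBD : ∀ q, B.factorization q ≤ D := vf B hBs fun q M hq hqT hd hM =>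
    keyB q M hq hqT (Dvd.dvd.mul_right hd _) (Dvd.dvd.mul_right hM _)
  have hCD : ∀ q, C.factorization q ≤ D := vf C hC fun q M hq hqT hd hM =>
    keyC q M hq hqT (Dvd.dvd.mul_right hd _) (Dvd.dvd.mul_right hM _)
  -- the exponent of `W`
  have hkD : k' ≤ T * D * (s + 1) + 1 := by
    rcases hcase with ⟨hW2, _⟩ | h0
    · have e4 : ∀ {a x i : ℕ}, Su P a → (∀ q, a.factorization q ≤ D) → x ≤ 2 ^ T → i ≤ D →
          a * x ^ i ≤ 2 ^ (T * D * (s + 1)) := by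
        intro a x i ha had hx hi
        have f1 := ha.le_pow hP2 had
        have f2 : x ^ i ≤ 2 ^ (T * D) := by
          calc x ^ i ≤ (2 ^ T) ^ i := Nat.pow_le_pow_left hx i
            _ ≤ (2 ^ T) ^ D := Nat.pow_le_pow_right (by positivity) hi
            _ = _ := by rw [← pow_mul]
        calc a * x ^ i ≤ 2 ^ (T * D * P.card) * 2 ^ (T * D) := Nat.mul_le_mul f1 f2
          _ = _ := by rw [← pow_add, hs]; ring_nf
      have e5 := e4 hA hAD hX hlD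
      have e6 := e4 hBs hBD hY hmD
      have e7 : 2 ^ k' ≤ 2 ^ (T * D * (s + 1) + 1) := by
        have f1 : 2 ^ k' ≤ W ^ k' := Nat.pow_le_pow_left hW2 _
        have f2 : W ^ k' ≤ C * W ^ k' := Nat.le_mul_of_pos_left _ (Nat.pos_of_ne_zero hC.1)
        rw [pow_succ]
        omega
      exact (Nat.pow_le_pow_iff_right (by norm_num)).mp e7
    · rw [h0]; exact Nat.zero_le _
  have hsum : ∀ {n : ℕ}, (∀ q, n.factorization q ≤ D) → ∑ q ∈ P, n.factorization q ≤ s * D := by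
    intro n hn
    calc ∑ q ∈ P, n.factorization q ≤ ∑ _q ∈ P, D := Finset.sum_le_sum fun q _ => hn q
      _ = s * D := by rw [Finset.sum_const, smul_eq_mul, hs]
  have hT1 : 1 ≤ T' := hT.trans hTT
  have hEB : E ≤ K₁ * T' ^ (κ₁ + 1) := by
    have f1 := hsum hAD
    have f2 := hsum hBD
    have f3 := hsum hCD
    have f4 : D ≤ T' * D := Nat.le_mul_of_pos_left _ hT1
    have f5 : T * D * (s + 1) ≤ T' * D * (s + 1) :=
      Nat.mul_le_mul_right _ (Nat.mul_le_mul_right _ hTT)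
    have f6 : s * D ≤ s * (T' * D) := Nat.mul_le_mul_left _ f4
    have f7 : E ≤ (4 * s + 3) * (T' * D) + 1 := by
      have : (4 * s + 3) * (T' * D) = T' * D * (s + 1) + 2 * (T' * D) + 3 * (s * (T' * D)) := by ring
      omega
    have f8 : (4 * s + 3) * (T' * D) = (4 * s + 3) * C₁ * T' ^ (κ₁ + 1) := by rw [hD]; ring
    have f9 : 1 ≤ T' ^ (κ₁ + 1) := Nat.one_le_pow _ _ hT1
    rw [hK₁, add_mul, one_mul]
    omega
  have hfin : E ≤ K₁ * (L₀ + 1) ^ (κ₁ + 1) * T ^ (κ₁ + 1) := by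
    have hS0p : 1 ≤ T ^ (κ₁ + 1) := Nat.one_le_pow _ _ hT
    have hL0p : 1 ≤ (L₀ + 1) ^ (κ₁ + 1) := Nat.one_le_pow _ _ (by omega)
    rcases le_total (Nat.log 2 (2 * E) + 1) T with g1 | g1
    · have : T' = T := by rw [hT']; exact max_eq_left g1
      rw [this] at hEB
      exact hEB.trans (Nat.mul_le_mul_right _ (Nat.le_mul_of_pos_right _ hL0p))
    · have hSL : T' = Nat.log 2 (2 * E) + 1 := by rw [hT']; exact max_eq_right g1
      have hX0' : 2 * E ≠ 0 := by omega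
      have g2 : 2 ^ (Nat.log 2 (2 * E)) ≤ 2 * E := Nat.pow_log_le_self 2 hX0'
      have g3 : 2 ^ T' ≤ 4 * K₁ * T' ^ (κ₁ + 1) := by
        calc 2 ^ T' = 2 * 2 ^ (Nat.log 2 (2 * E)) := by rw [hSL, pow_succ]; ring
          _ ≤ 2 * (2 * E) := Nat.mul_le_mul_left _ g2
          _ ≤ 2 * (2 * (K₁ * T' ^ (κ₁ + 1))) :=
              Nat.mul_le_mul_left _ (Nat.mul_le_mul_left _ hEB)
          _ = _ := by ring
      have g4 := hL₀ T' g3
      calc E ≤ _ := hEB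
        _ ≤ K₁ * (L₀ + 1) ^ (κ₁ + 1) := Nat.mul_le_mul_left _ (Nat.pow_le_pow_left (by omega) _)
        _ ≤ _ := Nat.le_mul_of_pos_right _ hS0p
  refine ⟨le_trans (by omega) hfin, le_trans (by omega) hfin, fun q => (hAE q).trans hfin,
    fun q => (hBE q).trans hfin, fun q => (hCE q).trans hfin, fun hW2 => ?_⟩
  rcases hcase with ⟨_, h⟩ | h
  · rw [← h]; exact le_trans (by omega) hfin
  · rw [h, pow_zero] at hk'
    have : 2 ^ k ≤ W ^ k := Nat.pow_le_pow_left hW2 k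
    rw [← hk'] at this
    have h2k : k < 2 ^ k := Nat.lt_two_pow_self
    omega

end Pool.Agent.TH888.W2
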