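import Mathlib
import Pool.Agent.TH888.W2.SExp
import Pool.Agent.TH888.B1.Free

/-!
Integer version of the exponent bounds, and the finite set of coefficients.
-/

set_option autoImplicit false

namespace Pool.Agent.TH888.W2

open Finset
open Pool.Agent.TH888.B1 (third_exponent)

theorem cop3 {a b c x y w : ℤ} {l m k : ℕ} (hl : 0 < l) (hm : 0 < m) (hk : 0 < k)
    (h : a * x ^ l + b * y ^ m = c * w ^ k)
    (hg : Int.gcd ((Int.gcd (a * x) (b * y) : ℕ) : ℤ) (c * w) = 1) :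
    Nat.Coprime (a.natAbs * x.natAbs) (b.natAbs * y.natAbs) ∧
      Nat.Coprime (a.natAbs * x.natAbs) (c.natAbs * w.natAbs) ∧
      Nat.Coprime (b.natAbs * y.natAbs) (c.natAbs * w.natAbs) := by
  have dv : ∀ {q : ℕ} {u z : ℤ} {i : ℕ}, q.Prime → 0 < i → (q : ℤ) ∣ u * z → (q : ℤ) ∣ u * z ^ i := by
    intro q u z i hq hi hd
    rcases (Nat.prime_iff_prime_int.mp hq).dvd_or_dvd hd with h1 | h1
    · exact Dvd.dvd.mul_right h1 _
    · exact Dvd.dvd.mul_left (dvd_pow h1 hi.ne') _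
  have dv' : ∀ {q : ℕ} {u z : ℤ} {i : ℕ}, q.Prime → (q : ℤ) ∣ u * z ^ i → (q : ℤ) ∣ u * z := by
    intro q u z i hq hd
    rcases (Nat.prime_iff_prime_int.mp hq).dvd_or_dvd hd with h1 | h1
    · exact Dvd.dvd.mul_right h1 _
    · exact Dvd.dvd.mul_left ((Nat.prime_iff_prime_int.mp hq).dvd_of_dvd_pow h1) _
  have fin : ∀ q : ℕ, q.Prime → (q : ℤ) ∣ a * x → (q : ℤ) ∣ b * y → (q : ℤ) ∣ c * w → False := by
    intro q hq h1 h2 h3
    have h4 : (q : ℤ) ∣ ((Int.gcd (a * x) (b * y) : ℕ) : ℤ) := Int.dvd_coe_gcd h1 h2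
    have h5 := Int.dvd_coe_gcd h4 h3
    rw [hg] at h5
    have h6 : q ∣ 1 := by exact_mod_cast h5
    exact hq.one_lt.ne' (Nat.dvd_one.mp h6)
  have tr : ∀ {q : ℕ} {u z : ℤ}, q ∣ u.natAbs * z.natAbs → (q : ℤ) ∣ u * z := by
    intro q u z hd
    rw [← Int.natAbs_mul] at hd
    exact Int.natCast_dvd.mpr hd
  refine ⟨?_, ?_, ?_⟩
  · apply Nat.coprime_of_dvd
    intro q hq h1 h2
    have g1 := tr h1
    have g2 := tr h2
    refine fin q hq g1 g2 (dv' (i := k) hq ?_)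
    rw [← h]
    exact dvd_add (dv hq hl g1) (dv hq hm g2)
  · apply Nat.coprime_of_dvd
    intro q hq h1 h2
    have g1 := tr h1
    have g2 := tr h2
    refine fin q hq g1 (dv' (i := m) hq ?_) g2
    have h3 : b * y ^ m = c * w ^ k - a * x ^ l := by rw [← h]; ring
    rw [h3]
    exact dvd_sub (dv hq hk g2) (dv hq hl g1)
  · apply Nat.coprime_of_dvd
    intro q hq h1 h2
    have g1 := tr h1
    have g2 := tr h2
    refine fin q hq (dv' (i := l) hq ?_) g1 g2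
    have h3 : a * x ^ l = c * w ^ k - b * y ^ m := by rw [← h]; ring
    rw [h3]
    exact dvd_sub (dv hq hk g2) (dv hq hm g1)

theorem su_exps (P : Finset ℕ) : ∃ C₀ κ : ℕ, ∀ (a b c x y w : ℤ) (T l m k : ℕ), 1 ≤ T →
    (∀ q ∈ P, q ≤ T) → 0 < l → 0 < m → 0 < k → m * k + k * l + l * m ≤ l * m * k →
    Su P a.natAbs → Su P b.natAbs → Su P c.natAbs →
    Int.gcd ((Int.gcd (a * x) (b * y) : ℕ) : ℤ) (c * w) = 1 → a * x ^ l + b * y ^ m = c * w ^ k →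
    x.natAbs ≤ 2 ^ T → y.natAbs ≤ 2 ^ T → w.natAbs ≤ 2 ^ T → x ≠ 0 → y ≠ 0 → w ≠ 0 →
    (∃ p : ℕ, p.Prime ∧ p ≤ T ∧ (p : ℤ) ∣ x) → (∃ p : ℕ, p.Prime ∧ p ≤ T ∧ (p : ℤ) ∣ y) →
    l ≤ C₀ * T ^ κ ∧ m ≤ C₀ * T ^ κ ∧ (∀ q, a.natAbs.factorization q ≤ C₀ * T ^ κ) ∧
      (∀ q, b.natAbs.factorization q ≤ C₀ * T ^ κ) ∧ (∀ q, c.natAbs.factorization q ≤ C₀ * T ^ κ) ∧
      ∃ k' : ℕ, 0 < k' ∧ k' ≤ C₀ * T ^ κ + 7 ∧ m * k' + k' * l + l * m ≤ l * m * k' ∧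
        w ^ k' = w ^ k := by
  obtain ⟨C₀, κ, H⟩ := su_exps_nat P
  refine ⟨C₀, κ, ?_⟩
  rintro a b c x y w T l m k hT hPT hl hm hk hineq ha hb hc hg h hx hy hw hx0 hy0 hw0
    ⟨p, hp, hpT, hpx⟩ ⟨p', hp', hpT', hpy⟩
  obtain ⟨c1, c2, c3⟩ := cop3 hl hm hk h hg
  have ab : ∀ (u z : ℤ) (i : ℕ), u.natAbs * z.natAbs ^ i = (u * z ^ i).natAbs := by
    intro u z i
    rw [Int.natAbs_mul, Int.natAbs_pow]
  have sq : ∀ u : ℤ, ((u.natAbs : ℕ) : ℤ) ^ 2 = u ^ 2 := by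
    intro u
    rw [Int.natCast_natAbs, sq_abs]
  have k1 : ∀ t₁ t₂ t₃ : ℤ, t₁ ∣ t₂ - t₃ ∨ t₁ ∣ t₂ + t₃ →
      ((t₁.natAbs : ℕ) : ℤ) ∣ ((t₂.natAbs : ℕ) : ℤ) ^ 2 - ((t₃.natAbs : ℕ) : ℤ) ^ 2 := by
    intro t₁ t₂ t₃ hd
    rw [sq, sq, Int.natAbs_dvd]
    have e : t₂ ^ 2 - t₃ ^ 2 = (t₂ - t₃) * (t₂ + t₃) := by ring
    rw [e]
    rcases hd with hd | hd
    · exact Dvd.dvd.mul_right hd _
    · exact Dvd.dvd.mul_left hd _
  obtain ⟨b1, b2, b3, b4, b5, b6⟩ := H a.natAbs b.natAbs c.natAbs x.natAbs y.natAbs w.natAbs T l m k hT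
    hPT hl hm hk ha hb hc c1 c2 c3
    (by rw [ab, ab, ab]
        exact k1 _ _ _ (Or.inl ⟨-1, by linear_combination h⟩))
    (by rw [ab, ab, ab]
        exact k1 _ _ _ (Or.inl ⟨-1, by linear_combination h⟩))
    (by rw [ab, ab, ab]
        exact k1 _ _ _ (Or.inr ⟨1, by linear_combination h⟩))
    (by rw [ab, ab, ab, ← h]; exact Int.natAbs_add_le _ _)
    hx hy hw (Int.natAbs_pos.mpr hx0) (Int.natAbs_pos.mpr hy0) (Int.natAbs_pos.mpr hw0)
    ⟨p, hp, hpT, Int.natCast_dvd.mp hpx⟩ ⟨p', hp', hpT', Int.natCast_dvd.mp hpy⟩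
  refine ⟨b1, b2, b3, b4, b5, ?_⟩
  rcases Nat.lt_or_ge w.natAbs 2 with h2 | h2
  · rcases Nat.lt_or_ge k 8 with h3 | h3
    · exact ⟨k, hk, by omega, hineq, rfl⟩
    · refine ⟨6 + k % 2, by omega, by omega, third_exponent hl hm hineq (by omega), ?_⟩
      have hw1 : 0 < w.natAbs := Int.natAbs_pos.mpr hw0
      have h4 : w = 1 ∨ w = -1 := Int.natAbs_eq_iff.mp (by omega : w.natAbs = 1)
      rcases h4 with h4 | h4
      · rw [h4, one_pow, one_pow]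
      · rw [h4]
        have h5 : k % 2 = 0 ∨ k % 2 = 1 := by omega
        rcases h5 with h5 | h5
        · have h6 : Even k := Nat.even_iff.mpr h5
          rw [h5, h6.neg_one_pow]; norm_num
        · have h6 : Odd k := Nat.odd_iff.mpr h5
          rw [h5, h6.neg_one_pow]; norm_num
  · exact ⟨k, hk, (b6 h2).trans (Nat.le_add_right _ _), hineq, rfl⟩

open Classical in
/-- the coefficients composed of the numbers of `P` with exponents at most `B` -/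
noncomputable def SF (P : Finset ℕ) (B : ℕ) : Finset ℤ :=
  ((P.pi (fun _ => range (B + 1))).image
    (fun e => ((∏ q ∈ P.attach, (q : ℕ) ^ (e q.1 q.2) : ℕ) : ℤ))) ∪
  ((P.pi (fun _ => range (B + 1))).image
    (fun e => -((∏ q ∈ P.attach, (q : ℕ) ^ (e q.1 q.2) : ℕ) : ℤ)))

theorem sf_card (P : Finset ℕ) (B : ℕ) : (SF P B).card ≤ 2 * (B + 1) ^ P.card := by
  classical
  have h : (P.pi (fun _ => range (B + 1))).card = (B + 1) ^ P.card := by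
    rw [Finset.card_pi, Finset.prod_const, card_range]
  unfold SF
  refine (card_union_le _ _).trans ?_
  refine (Nat.add_le_add card_image_le card_image_le).trans ?_
  rw [h]
  omega

theorem sf_mem {P : Finset ℕ} {B : ℕ} {a : ℤ} (ha : Su P a.natAbs)
    (hB : ∀ q, a.natAbs.factorization q ≤ B) : a ∈ SF P B := by
  classical
  have h1 : (fun (q : ℕ) (_ : q ∈ P) => a.natAbs.factorization q) ∈ P.pi (fun _ => range (B + 1)) := by
    rw [Finset.mem_pi]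
    intro q _
    rw [mem_range]
    exact Nat.lt_succ_of_le (hB q)
  have h2 : ∏ q ∈ P.attach, (q : ℕ) ^ (a.natAbs.factorization q.1) = a.natAbs := by
    rw [Finset.prod_attach P (fun q => q ^ (a.natAbs.factorization q))]
    exact ha.prod
  unfold SF
  rw [mem_union, mem_image, mem_image]
  rcases Int.natAbs_eq a with h3 | h3
  · left
    refine ⟨_, h1, ?_⟩
    rw [h2]; exact h3.symm
  · right
    refine ⟨_, h1, ?_⟩
    rw [h2]; exact h3.symm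

end Pool.Agent.TH888.W2
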