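import Mathlib
import Pool.Agent.TH888.W2.SInt
import Pool.Agent.TH888.B1.FreeMain

/-!
The polynomials `c^(k-1) (a f^l + b g^m)` and the count for all coefficients and exponents.
-/

set_option autoImplicit false

namespace Pool.Agent.TH888.W2

open Finset Polynomial
open Pool.Agent.TH888.B1 (bezout_int power_count)

/-- `c^(k-1) (a f^l + b g^m)` -/
noncomputable def LS (f g : ℤ[X]) (l m k : ℕ) (a b c : ℤ) : ℤ[X] :=
  C (c ^ (k - 1)) * (C a * f ^ l + C b * g ^ m)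

theorem ls_eval (f g : ℤ[X]) (l m k : ℕ) (a b c n : ℤ) : (LS f g l m k a b c).eval n =
    c ^ (k - 1) * (a * f.eval n ^ l + b * g.eval n ^ m) := by
  unfold LS
  simp

theorem cop_ne {R : Type*} [CommRing R] [IsDomain R] {x y : R} (h : IsCoprime x y)
    (hx : ¬ IsUnit x) {l m : ℕ} (hl : 0 < l) {a b : R} (hb : IsUnit b) : a * x ^ l + b * y ^ m ≠ 0 := by
  intro h0
  apply hx
  have h1 : x ∣ b * y ^ m := by
    have : b * y ^ m = - (a * x ^ l) := by linear_combination h0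
    rw [this]
    exact (Dvd.dvd.mul_left (dvd_pow_self x hl.ne') a).neg_right
  have h2 : x ∣ y ^ m := (hb.dvd_mul_left).mp h1
  exact (h.pow_right (n := m)).isUnit_of_dvd' dvd_rfl h2

/-- the polynomials do not vanish modulo large primes -/
theorem ls_mod {f g : ℤ[X]} (hf : 0 < f.natDegree)
    (hcop : IsCoprime (f.map (Int.castRingHom ℚ)) (g.map (Int.castRingHom ℚ))) :
    ∃ r₀ : ℕ, ∀ r : ℕ, r.Prime → r₀ < r → ∀ (l m k : ℕ) (a b c : ℤ), 0 < l → ¬ (r : ℤ) ∣ b →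
      ¬ (r : ℤ) ∣ c → (LS f g l m k a b c).map (Int.castRingHom (ZMod r)) ≠ 0 := by
  obtain ⟨u, v, R, hR, huv⟩ := bezout_int hcop
  refine ⟨R.natAbs + f.leadingCoeff.natAbs, fun r hr hr₀ l m k a b c hl hb hc => ?_⟩
  have : Fact r.Prime := ⟨hr⟩
  set φ := Int.castRingHom (ZMod r) with hφ
  have hsmall : ∀ x : ℤ, x ≠ 0 → x.natAbs < r → φ x ≠ 0 := by
    intro x hx hxr h0
    have h1 : (r : ℤ) ∣ x := (ZMod.intCast_zmod_eq_zero_iff_dvd x r).mp h0
    have h2 := Int.natAbs_dvd_natAbs.mpr h1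
    rw [Int.natAbs_natCast] at h2
    exact absurd (Nat.le_of_dvd (Int.natAbs_pos.mpr hx) h2) (by omega)
  have hnd : ∀ x : ℤ, ¬ (r : ℤ) ∣ x → φ x ≠ 0 := fun x hx h0 =>
    hx ((ZMod.intCast_zmod_eq_zero_iff_dvd x r).mp h0)
  have hR' : φ R ≠ 0 := hsmall R hR (by omega)
  have hf0 : f ≠ 0 := by rintro rfl; simp at hf
  have hlc : φ f.leadingCoeff ≠ 0 := hsmall _ (leadingCoeff_ne_zero.mpr hf0) (by omega)
  have hcr : IsCoprime (f.map φ) (g.map φ) := by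
    refine ⟨C (φ R)⁻¹ * u.map φ, C (φ R)⁻¹ * v.map φ, ?_⟩
    have h1 := congrArg (fun P : ℤ[X] => P.map φ) huv
    simp only [Polynomial.map_add, Polynomial.map_mul, Polynomial.map_C] at h1
    rw [mul_assoc, mul_assoc, ← mul_add, h1, ← C_mul, inv_mul_cancel₀ hR', C_1]
  have hnu : ¬ IsUnit (f.map φ) := by
    intro h
    have h1 := natDegree_eq_zero_of_isUnit h
    rw [natDegree_map_of_leadingCoeff_ne_zero φ hlc] at h1
    omega
  have hbu : IsUnit (C (φ b) : (ZMod r)[X]) := isUnit_C.mpr (isUnit_iff_ne_zero.mpr (hnd b hb))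
  have hcu : (C (φ (c ^ (k - 1))) : (ZMod r)[X]) ≠ 0 := by
    rw [Ne, C_eq_zero, map_pow]
    exact pow_ne_zero _ (hnd c hc)
  unfold LS
  simp only [Polynomial.map_add, Polynomial.map_mul, Polynomial.map_C, Polynomial.map_pow]
  exact mul_ne_zero hcu (cop_ne hcr hnu hl hbu)

/-- the polynomials are not perfect powers -/
theorem ls_not_pow {f g : ℤ[X]} (hf : 0 < f.natDegree) (hg : g ≠ 0)
    (hcop : IsCoprime (f.map (Int.castRingHom ℚ)) (g.map (Int.castRingHom ℚ))) {l m k : ℕ}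
    (hl : 0 < l) (hm : 0 < m) (hk : 0 < k) (hineq : m * k + k * l + l * m ≤ l * m * k) {a b c : ℤ}
    (ha : a ≠ 0) (hb : b ≠ 0) (hc : c ≠ 0) :
    ¬ ∃ G : ℚ[X], (LS f g l m k a b c).map (Int.castRingHom ℚ) = G ^ k := by
  rintro ⟨G, hG⟩
  have hinj : Function.Injective (Int.castRingHom ℚ) := (Int.castRingHom ℚ).injective_int
  have hne : ∀ {P : ℤ[X]}, P ≠ 0 → P.map (Int.castRingHom ℚ) ≠ 0 := fun {P} hP =>
    (Polynomial.map_ne_zero_iff hinj).mpr hP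
  have hz : ∀ z : ℤ, z ≠ 0 → (Int.castRingHom ℚ) z ≠ 0 := by
    intro z hz
    simpa using hz
  have ha0 := hz a ha
  have hb0 := hz b hb
  have hc0 := hz _ (pow_ne_zero (k - 1) hc)
  have hf0 : f ≠ 0 := by rintro rfl; simp at hf
  have hnu : ¬ IsUnit (f.map (Int.castRingHom ℚ)) := by
    intro h
    have h1 := natDegree_eq_zero_of_isUnit h
    rw [natDegree_map_eq_of_injective hinj] at h1
    omega
  unfold LS at hG
  simp only [Polynomial.map_add, Polynomial.map_mul, Polynomial.map_pow, map_C] at hG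
  set d : ℚ := (Int.castRingHom ℚ) (c ^ (k - 1)) with hd
  have hdd : C d⁻¹ * C d = (1 : ℚ[X]) := by rw [← C_mul, inv_mul_cancel₀ hc0, C_1]
  have hG0 : G ≠ 0 := by
    rintro rfl
    rw [zero_pow hk.ne'] at hG
    rcases mul_eq_zero.mp hG with h | h
    · rw [C_eq_zero] at h; exact hc0 h
    · exact cop_ne hcop hnu hl (isUnit_C.mpr (isUnit_iff_ne_zero.mpr hb0)) h
  have h2 := Polynomial.flt_catalan (k := ℚ) hl.ne' hm.ne' hk.ne' hineq
    (by exact_mod_cast hl.ne') (by exact_mod_cast hm.ne') (by exact_mod_cast hk.ne')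
    (hne hf0) (hne hg) hG0 hcop (u := (Int.castRingHom ℚ) a) (v := (Int.castRingHom ℚ) b)
    (w := -d⁻¹) ha0 hb0 (neg_ne_zero.mpr (inv_ne_zero hc0)) (by
      rw [C_neg, ← hG]
      linear_combination (-(C ((Int.castRingHom ℚ) a) * f.map (Int.castRingHom ℚ) ^ l +
        C ((Int.castRingHom ℚ) b) * g.map (Int.castRingHom ℚ) ^ m)) * hdd)
  rw [natDegree_map_eq_of_injective hinj] at h2
  omega

theorem ls_natDegree {f g : ℤ[X]} {l m k B D : ℕ} {a b c : ℤ} (hl : l ≤ B) (hm : m ≤ B)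
    (hD : f.natDegree ≤ D) (hD' : g.natDegree ≤ D) : (LS f g l m k a b c).natDegree ≤ B * D := by
  have h1 : ∀ {P : ℤ[X]} {i : ℕ}, i ≤ B → P.natDegree ≤ D → (P ^ i).natDegree ≤ B * D := by
    intro P i hi hP
    exact natDegree_pow_le.trans (Nat.mul_le_mul hi hP)
  unfold LS
  refine (natDegree_C_mul_le _ _).trans ((natDegree_add_le _ _).trans (max_le ?_ ?_))
  · exact (natDegree_C_mul_le _ _).trans (h1 hl hD)
  · exact (natDegree_C_mul_le _ _).trans (h1 hm hD')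

open Classical in
/-- exponents up to `B` and coefficients with exponents up to `B` -/
noncomputable def Ind (P : Finset ℕ) (B : ℕ) : Finset ((ℕ × ℕ × ℕ) × (ℤ × ℤ × ℤ)) :=
  ((range (B + 1) ×ˢ range (B + 1) ×ˢ range (B + 1)) ×ˢ (SF P B ×ˢ SF P B ×ˢ SF P B)).filter
    (fun e => 0 < e.1.1 ∧ 0 < e.1.2.1 ∧ 0 < e.1.2.2 ∧
      e.1.2.1 * e.1.2.2 + e.1.2.2 * e.1.1 + e.1.1 * e.1.2.1 ≤ e.1.1 * e.1.2.1 * e.1.2.2 ∧
      Su P e.2.1.natAbs ∧ Su P e.2.2.1.natAbs ∧ Su P e.2.2.2.natAbs)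

theorem ind_card (P : Finset ℕ) (B : ℕ) :
    (Ind P B).card ≤ (B + 1) ^ 3 * (2 * (B + 1) ^ P.card) ^ 3 := by
  classical
  unfold Ind
  refine (card_filter_le _ _).trans ?_
  rw [card_product, card_product, card_product, card_product, card_product, card_range]
  have h := sf_card P B
  calc (B + 1) * ((B + 1) * (B + 1)) * ((SF P B).card * ((SF P B).card * (SF P B).card))
      ≤ (B + 1) * ((B + 1) * (B + 1)) * ((2 * (B + 1) ^ P.card) *
        ((2 * (B + 1) ^ P.card) * (2 * (B + 1) ^ P.card))) := by gcongr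
    _ = _ := by ring

theorem count_su {f g : ℤ[X]} (hf : 0 < f.natDegree) (hg : g ≠ 0)
    (hcop : IsCoprime (f.map (Int.castRingHom ℚ)) (g.map (Int.castRingHom ℚ))) {P : Finset ℕ}
    {B D N S r : ℕ}
    (hD : f.natDegree ≤ D) (hD' : g.natDegree ≤ D) (hr : r.Prime) (hrB : B < r)
    (hrP : ∀ q ∈ P, q < r)
    (hr₀ : ∀ (l m k : ℕ) (a b c : ℤ), 0 < l → ¬ (r : ℤ) ∣ b → ¬ (r : ℤ) ∣ c →
      (LS f g l m k a b c).map (Int.castRingHom (ZMod r)) ≠ 0) (hN : 1 ≤ N)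
    (hbig : N ^ S * 2 ^ S * (2 * (S + 1)) ^ 2 < r ^ (2 * S + 1)) (A : Finset ℕ)
    (hA : ∀ n ∈ A, 1 ≤ n ∧ n ≤ N ∧ ∃ e ∈ Ind P B, ∃ w : ℤ, |w| ≤ ((2 ^ S : ℕ) : ℤ) ∧
      w ^ e.1.2.2 = (LS f g e.1.1 e.1.2.1 e.1.2.2 e.2.1 e.2.2.1 e.2.2.2).eval (n : ℤ)) :
    A.card ≤ ((B + 1) ^ 3 * (2 * (B + 1) ^ P.card) ^ 3) *
      (B * D * (N / r + 1) + r * (B * (B * S + B * D))) := by
  classical
  have hru : ∀ a : ℤ, Su P a.natAbs → ¬ (r : ℤ) ∣ a := by
    intro a ha hd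
    have h1 := ha.2 r hr (Int.natCast_dvd.mp hd)
    exact lt_irrefl _ (hrP r h1)
  set Z : ((ℕ × ℕ × ℕ) × (ℤ × ℤ × ℤ)) → Finset ℕ := fun e => (Icc 1 N).filter (fun n : ℕ =>
    ∃ w : ℤ, |w| ≤ ((2 ^ S : ℕ) : ℤ) ∧
      w ^ e.1.2.2 = (LS f g e.1.1 e.1.2.1 e.1.2.2 e.2.1 e.2.2.1 e.2.2.2).eval (n : ℤ)) with hZ
  have h1 : ∀ e ∈ Ind P B, (Z e).card ≤ B * D * (N / r + 1) + r * (B * (B * S + B * D)) := by
    rintro ⟨⟨l, m, k⟩, a, b, c⟩ he
    simp only [Ind, mem_product, mem_filter, mem_range] at he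
    obtain ⟨⟨⟨h1, h2, h3⟩, _⟩, h4, h5, h6, h7, ha, hb, hc⟩ := he
    have hk : ¬ r ∣ k := fun h => by
      have := Nat.le_of_dvd h6 h
      omega
    have h8 := power_count (D := B * D) hr h6 hk (ls_not_pow hf hg hcop h4 h5 h6 h7
      (Int.natAbs_ne_zero.mp ha.1) (Int.natAbs_ne_zero.mp hb.1) (Int.natAbs_ne_zero.mp hc.1))
      (ls_natDegree (by omega) (by omega) hD hD') (hr₀ l m k a b c h4 (hru b hb) (hru c hc)) hN
      (Nat.one_le_two_pow (n := S)) hbig (Z ((l, m, k), (a, b, c))) (by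
        intro n hn
        simp only [hZ, mem_filter, mem_Icc] at hn
        exact ⟨hn.1.1, hn.1.2, hn.2⟩)
    refine h8.trans (Nat.add_le_add_left (Nat.mul_le_mul_left _ ?_) _)
    exact Nat.mul_le_mul (by omega) (Nat.add_le_add_right (Nat.mul_le_mul_right _ (by omega)) _)
  have h2 : A ⊆ (Ind P B).biUnion Z := by
    intro n hn
    obtain ⟨h3, h4, e, he, h5⟩ := hA n hn
    rw [mem_biUnion]
    refine ⟨e, he, ?_⟩
    simp only [hZ, mem_filter, mem_Icc]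
    exact ⟨⟨h3, h4⟩, h5⟩
  exact (card_le_card h2).trans ((card_biUnion_le_card_mul _ _ _ h1).trans
    (Nat.mul_le_mul_right _ (ind_card P B)))

end Pool.Agent.TH888.W2
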