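import Mathlib
import Pool.Agent.TH888.W2.SPoly

/-!
Two polynomial bases, a free third base, all exponents and all `S`-unit coefficients.
-/

set_option autoImplicit false

namespace Pool.Agent.TH888.W2

open Finset Polynomial Filter Topology
open Pool.Agent.TH888.B1 (polylog_rpow aux_prime hbig_of good_classes small_values eval_bound ht)

/-- `f n` and `g n` are two bases of a solution with coefficients composed of the primes of `P`,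
whose third base is at most `W` -/
def ExcSu (P : Finset ℕ) (f g : ℤ[X]) (W : ℝ) : Set ℕ :=
  {n | ∃ (a b c w : ℤ) (l m k : ℕ), 0 < l ∧ 0 < m ∧ 0 < k ∧
    m * k + k * l + l * m ≤ l * m * k ∧ Su P a.natAbs ∧ Su P b.natAbs ∧ Su P c.natAbs ∧
    f.eval (n : ℤ) ≠ 0 ∧ g.eval (n : ℤ) ≠ 0 ∧ w ≠ 0 ∧ |(w : ℝ)| ≤ W ∧
    Int.gcd ((Int.gcd (a * f.eval (n : ℤ)) (b * g.eval (n : ℤ)) : ℕ) : ℤ) (c * w) = 1 ∧
    a * f.eval (n : ℤ) ^ l + b * g.eval (n : ℤ) ^ m = c * w ^ k}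

theorem small_par (Cst K c₀ : ℕ) {δ : ℝ} (hδ : 0 < δ) : ∃ L : ℕ, ∀ N : ℕ, L ≤ N →
    ∃ T : ℕ, 1 ≤ T ∧ c₀ * (Nat.log 2 N + 1) ≤ T ∧
      Real.exp ((N : ℝ) ^ (δ / (8 * (K + 1)))) ≤ ((2 ^ T : ℕ) : ℝ) ∧
      ((Cst * T ^ K : ℕ) : ℝ) ≤ (N : ℝ) ^ (δ / 2) := by
  obtain ⟨c, hc⟩ : ∃ c, c = δ / (8 * ((K : ℝ) + 1)) := ⟨_, rfl⟩
  have hK : (0 : ℝ) < (K : ℝ) + 1 := by positivity
  have hc0 : 0 < c := by rw [hc]; positivity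
  have hcK : c * (K + 1) = δ / 8 := by rw [hc]; field_simp
  obtain ⟨L₁, hL₁⟩ := polylog_rpow c₀ 1 (2 * c) (by positivity)
  have ht1 : Tendsto (fun N : ℕ => (N : ℝ) ^ c) atTop atTop :=
    (tendsto_rpow_atTop hc0).comp tendsto_natCast_atTop_atTop
  have ht2 : Tendsto (fun N : ℕ => (N : ℝ) ^ (δ / 4)) atTop atTop :=
    (tendsto_rpow_atTop (by positivity)).comp tendsto_natCast_atTop_atTop
  obtain ⟨L₂, hL₂⟩ := eventually_atTop.mp (ht1.eventually_ge_atTop 2)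
  obtain ⟨L₃, hL₃⟩ := eventually_atTop.mp (ht2.eventually_ge_atTop ((Cst : ℝ) * 2 ^ K))
  refine ⟨L₁ + L₂ + L₃ + 2, fun N hN => ?_⟩
  have hNpos : (0 : ℝ) < N := by
    have : 0 < N := by omega
    exact_mod_cast this
  have hN1 : (1 : ℝ) ≤ N := by
    have : 1 ≤ N := by omega
    exact_mod_cast this
  have h1 := hL₁ N (by omega)
  have h2 := hL₂ N (by omega)
  have h3 := hL₃ N (by omega)
  have hle : (N : ℝ) ^ (2 * c) ≤ (⌈(N : ℝ) ^ (2 * c)⌉₊ : ℝ) := Nat.le_ceil _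
  have hge1 : 1 ≤ (N : ℝ) ^ (2 * c) := Real.one_le_rpow hN1 (by positivity)
  have hlt : (⌈(N : ℝ) ^ (2 * c)⌉₊ : ℝ) < (N : ℝ) ^ (2 * c) + 1 := Nat.ceil_lt_add_one (by linarith)
  obtain ⟨T, hT⟩ : ∃ T, T = ⌈(N : ℝ) ^ (2 * c)⌉₊ := ⟨_, rfl⟩
  rw [← hT] at hle hlt
  refine ⟨T, ?_, ?_, ?_, ?_⟩
  · have : (1 : ℝ) ≤ T := by linarith
    exact_mod_cast this
  · rw [pow_one] at h1
    have : ((c₀ * (Nat.log 2 N + 1) : ℕ) : ℝ) ≤ T := by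
      push_cast at h1 ⊢
      linarith
    exact_mod_cast this
  · rw [← hc]
    have e1 : (N : ℝ) ^ (2 * c) = (N : ℝ) ^ c * (N : ℝ) ^ c := by
      rw [← Real.rpow_add hNpos]; congr 1; ring
    have e2 : 2 * (N : ℝ) ^ c ≤ T := by
      have : 2 * (N : ℝ) ^ c ≤ (N : ℝ) ^ c * (N : ℝ) ^ c :=
        mul_le_mul_of_nonneg_right h2 (by linarith)
      linarith
    have e3 : (N : ℝ) ^ c ≤ T * Real.log 2 := by
      have := Real.log_two_gt_d9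
      have hS0 : (0 : ℝ) ≤ T := Nat.cast_nonneg _
      have : (T : ℝ) * (1 / 2) ≤ T * Real.log 2 := mul_le_mul_of_nonneg_left (by linarith) hS0
      linarith
    calc Real.exp ((N : ℝ) ^ c) ≤ Real.exp (T * Real.log 2) := Real.exp_le_exp.mpr e3
      _ = (2 : ℝ) ^ T := by
        rw [mul_comm, Real.exp_mul, Real.exp_log (by norm_num), Real.rpow_natCast]
      _ = _ := by push_cast; rfl
  · have e1 : (T : ℝ) ≤ 2 * (N : ℝ) ^ (2 * c) := by linarith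
    have e2 : (T : ℝ) ^ K ≤ 2 ^ K * (N : ℝ) ^ (δ / 4) := by
      calc (T : ℝ) ^ K ≤ (2 * (N : ℝ) ^ (2 * c)) ^ K := pow_le_pow_left₀ (Nat.cast_nonneg _) e1 _
        _ = 2 ^ K * (N : ℝ) ^ (2 * c * K) := by
          rw [mul_pow, ← Real.rpow_natCast ((N : ℝ) ^ (2 * c)), ← Real.rpow_mul hNpos.le]
        _ ≤ 2 ^ K * (N : ℝ) ^ (δ / 4) := by
          apply mul_le_mul_of_nonneg_left _ (by positivity)
          apply Real.rpow_le_rpow_of_exponent_le hN1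
          nlinarith
    have e4 : (N : ℝ) ^ (δ / 2) = (N : ℝ) ^ (δ / 4) * (N : ℝ) ^ (δ / 4) := by
      rw [← Real.rpow_add hNpos]; congr 1; ring
    rw [e4]
    push_cast
    calc (Cst : ℝ) * (T : ℝ) ^ K ≤ Cst * (2 ^ K * (N : ℝ) ^ (δ / 4)) :=
          mul_le_mul_of_nonneg_left e2 (Nat.cast_nonneg _)
      _ = (Cst * 2 ^ K) * (N : ℝ) ^ (δ / 4) := by ring
      _ ≤ _ := mul_le_mul_of_nonneg_right h3 (by positivity)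

/-- the polynomial bookkeeping -/
theorem final_su {B D S Z N r s : ℕ} {x : ℝ} (hBZ : B + 1 ≤ Z) (hSZ : S ≤ Z) (hDZ : D ≤ Z)
    (hx16 : 16 ≤ x) (hx2 : 8 * (N : ℝ) ≤ x ^ 2) (hxr : x < r) (hr4 : (r : ℝ) ≤ 4 * x) :
    (((3 * D) + ((B + 1) ^ 3 * (2 * (B + 1) ^ s) ^ 3) *
      (B * D * (N / r + 1) + r * (B * (B * S + B * D))) : ℕ) : ℝ) ≤
      x * ((81 * Z ^ (6 + 3 * s) : ℕ) : ℝ) := by
  have hx0 : (0 : ℝ) < x := by linarith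
  have hN0 : (0 : ℝ) ≤ N := Nat.cast_nonneg _
  have hNr : (((N / r : ℕ) : ℝ)) ≤ x := by
    have h1 : (((N / r : ℕ) : ℝ)) ≤ (N : ℝ) / r := Nat.cast_div_le
    have h2 : (N : ℝ) / r ≤ N / x := div_le_div_of_nonneg_left hN0 hx0 hxr.le
    have h3 : (N : ℝ) / x ≤ x := by
      rw [div_le_iff₀ hx0]
      nlinarith
    linarith
  have hBZ' : (B : ℝ) + 1 ≤ Z := by exact_mod_cast hBZ
  have hSZ' : (S : ℝ) ≤ Z := by exact_mod_cast hSZ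
  have hDZ' : (D : ℝ) ≤ Z := by exact_mod_cast hDZ
  have hB0 : (0 : ℝ) ≤ B := Nat.cast_nonneg _
  have hD0 : (0 : ℝ) ≤ D := Nat.cast_nonneg _
  have hS0 : (0 : ℝ) ≤ S := Nat.cast_nonneg _
  have hBZ'' : (B : ℝ) ≤ Z := by linarith
  have hZ1 : (1 : ℝ) ≤ Z := by linarith
  have hZ0 : (0 : ℝ) ≤ Z := by linarith
  have hr0 : (0 : ℝ) ≤ r := Nat.cast_nonneg _
  have h1 : ((N / r : ℕ) : ℝ) + 1 ≤ x + x := by linarith
  have hb : (B : ℝ) * D * (((N / r : ℕ) : ℝ) + 1) + r * (B * (B * S + B * D)) ≤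
      10 * x * (Z : ℝ) ^ 3 := by
    calc (B : ℝ) * D * (((N / r : ℕ) : ℝ) + 1) + r * (B * (B * S + B * D))
        ≤ Z * Z * (x + x) + (4 * x) * (Z * (Z * Z + Z * Z)) := by gcongr
      _ = 2 * x * (Z : ℝ) ^ 2 + 8 * x * (Z : ℝ) ^ 3 := by ring
      _ ≤ 2 * x * (Z : ℝ) ^ 3 + 8 * x * (Z : ℝ) ^ 3 := by
          have e2 : (Z : ℝ) ^ 2 ≤ (Z : ℝ) ^ 3 := pow_le_pow_right₀ hZ1 (by norm_num)
          have := mul_le_mul_of_nonneg_left e2 (by linarith : (0 : ℝ) ≤ 2 * x)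
          linarith
      _ = _ := by ring
  have hi : ((B : ℝ) + 1) ^ 3 * (2 * ((B : ℝ) + 1) ^ s) ^ 3 ≤ 8 * (Z : ℝ) ^ (3 + 3 * s) := by
    calc ((B : ℝ) + 1) ^ 3 * (2 * ((B : ℝ) + 1) ^ s) ^ 3 ≤ (Z : ℝ) ^ 3 * (2 * (Z : ℝ) ^ s) ^ 3 := by
          gcongr
      _ = 8 * (Z : ℝ) ^ (3 + 3 * s) := by
          rw [mul_pow, ← pow_mul, mul_comm s 3, pow_add]; ring
  push_cast
  calc 3 * (D : ℝ) + (((B : ℝ) + 1) ^ 3 * (2 * ((B : ℝ) + 1) ^ s) ^ 3) *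
        (B * D * (((N / r : ℕ) : ℝ) + 1) + r * (B * (B * S + B * D)))
      ≤ 3 * Z + (8 * (Z : ℝ) ^ (3 + 3 * s)) * (10 * x * (Z : ℝ) ^ 3) := by
        have h2 := mul_le_mul hi hb (by positivity) (by positivity)
        linarith
    _ = 3 * Z + 80 * x * (Z : ℝ) ^ (6 + 3 * s) := by
        have : (Z : ℝ) ^ (6 + 3 * s) = (Z : ℝ) ^ (3 + 3 * s) * (Z : ℝ) ^ 3 := by
          rw [← pow_add]; congr 1; ring
        rw [this]; ring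
    _ ≤ x * (81 * (Z : ℝ) ^ (6 + 3 * s)) := by
        have e1 : (Z : ℝ) ≤ (Z : ℝ) ^ (6 + 3 * s) := le_self_pow₀ hZ1 (by omega)
        have e3 : 3 * (Z : ℝ) ≤ x * (Z : ℝ) ^ (6 + 3 * s) :=
          mul_le_mul (by linarith) e1 hZ0 hx0.le
        linarith

/-- an exceptional integer in a good class solves one of finitely many equations `w ^ k = F n` -/
theorem mem_eq {P : Finset ℕ} {C₀ κ : ℕ}
    (H : ∀ (a b c x y w : ℤ) (T l m k : ℕ), 1 ≤ T →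
    (∀ q ∈ P, q ≤ T) → 0 < l → 0 < m → 0 < k → m * k + k * l + l * m ≤ l * m * k →
    Su P a.natAbs → Su P b.natAbs → Su P c.natAbs →
    Int.gcd ((Int.gcd (a * x) (b * y) : ℕ) : ℤ) (c * w) = 1 → a * x ^ l + b * y ^ m = c * w ^ k →
    x.natAbs ≤ 2 ^ T → y.natAbs ≤ 2 ^ T → w.natAbs ≤ 2 ^ T → x ≠ 0 → y ≠ 0 → w ≠ 0 →
    (∃ p : ℕ, p.Prime ∧ p ≤ T ∧ (p : ℤ) ∣ x) → (∃ p : ℕ, p.Prime ∧ p ≤ T ∧ (p : ℤ) ∣ y) →
    l ≤ C₀ * T ^ κ ∧ m ≤ C₀ * T ^ κ ∧ (∀ q, a.natAbs.factorization q ≤ C₀ * T ^ κ) ∧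
      (∀ q, b.natAbs.factorization q ≤ C₀ * T ^ κ) ∧ (∀ q, c.natAbs.factorization q ≤ C₀ * T ^ κ) ∧
      ∃ k' : ℕ, 0 < k' ∧ k' ≤ C₀ * T ^ κ + 7 ∧ m * k' + k' * l + l * m ≤ l * m * k' ∧
        w ^ k' = w ^ k)
    {f g : ℤ[X]} {n T B S : ℕ} {W : ℝ} (hT1 : 1 ≤ T) (hPT : ∀ q ∈ P, q ≤ T)
    (hB : B = C₀ * T ^ κ + 7) (hS : S = T * B * P.card + T) (hW : W ≤ ((2 ^ T : ℕ) : ℝ))
    (hn : n ∈ ExcSu P f g W) (hf1 : (f.eval (n : ℤ)).natAbs ≤ 2 ^ T)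
    (hg1 : (g.eval (n : ℤ)).natAbs ≤ 2 ^ T)
    (hpf : ∃ p : ℕ, p.Prime ∧ p ≤ T ∧ (p : ℤ) ∣ f.eval (n : ℤ))
    (hpg : ∃ p : ℕ, p.Prime ∧ p ≤ T ∧ (p : ℤ) ∣ g.eval (n : ℤ)) :
    ∃ e ∈ Ind P B, ∃ w : ℤ, |w| ≤ ((2 ^ S : ℕ) : ℤ) ∧
      w ^ e.1.2.2 = (LS f g e.1.1 e.1.2.1 e.1.2.2 e.2.1 e.2.2.1 e.2.2.2).eval (n : ℤ) := by
  obtain ⟨a, b, c, w, l, m, k, hl, hm, hk, hineq, ha, hb, hc, hf0, hgn0, hw0, hwW, hgcd, heq⟩ := hn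
  have hwS : w.natAbs ≤ 2 ^ T := by
    have h5 : ((w.natAbs : ℕ) : ℝ) ≤ ((2 ^ T : ℕ) : ℝ) := by
      have h6 : ((w.natAbs : ℕ) : ℝ) = |(w : ℝ)| := by
        rw [Nat.cast_natAbs, Int.cast_abs]
      rw [h6]; exact hwW.trans hW
    exact_mod_cast h5
  obtain ⟨b1, b2, b3, b4, b5, k', hk'0, hk'B, hk'i, hk'e⟩ := H a b c _ _ w T l m k hT1 hPT hl hm hk
    hineq ha hb hc hgcd heq hf1 hg1 hwS hf0 hgn0 hw0 hpf hpg
  have hfB : ∀ {z : ℤ}, (∀ q, z.natAbs.factorization q ≤ C₀ * T ^ κ) →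
      ∀ q, z.natAbs.factorization q ≤ B := fun hz q => (hz q).trans (by omega)
  have hP2 : ∀ q ∈ P, q ≤ 2 ^ T := fun q hq => (hPT q hq).trans Nat.lt_two_pow_self.le
  refine ⟨((l, m, k'), (a, b, c)), ?_, c * w, ?_, ?_⟩
  · simp only [Ind, mem_product, mem_filter, mem_range]
    exact ⟨⟨⟨by omega, by omega, by omega⟩, sf_mem ha (hfB b3), sf_mem hb (hfB b4),
      sf_mem hc (hfB b5)⟩, hl, hm, hk'0, hk'i, ha, hb, hc⟩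
  · rw [Int.abs_eq_natAbs, Int.natAbs_mul]
    have h1 := hc.le_pow hP2 (hfB b5)
    have h2 : c.natAbs * w.natAbs ≤ 2 ^ S := by
      rw [hS, pow_add]
      exact Nat.mul_le_mul h1 hwS
    exact_mod_cast h2
  · rw [ls_eval, heq, ← hk'e]
    have h3 : (c * w) ^ k' = c ^ (k' - 1) * (c * w ^ k') := by
      rw [mul_pow, ← mul_assoc, ← pow_succ, Nat.sub_add_cancel hk'0]
    exact h3

theorem main (P : Finset ℕ) : ∃ c : ℝ → ℝ, (∀ δ : ℝ, 0 < δ → 0 < c δ) ∧ ∀ f g : ℤ[X],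
    0 < f.natDegree → 0 < g.natDegree →
    IsCoprime (f.map (Int.castRingHom ℚ)) (g.map (Int.castRingHom ℚ)) →
    ∀ ε : ℝ, 0 < ε → ∃ (M : ℕ) (G : Finset ℕ), 0 < M ∧ G ⊆ range M ∧ (1 - ε) * M ≤ (G.card : ℝ) ∧
      ∀ δ : ℝ, 0 < δ → ∃ N₀ : ℕ, ∀ N : ℕ, N₀ ≤ N →
        (({n : ℕ | 1 ≤ n ∧ n ≤ N ∧ n % M ∈ G ∧
          n ∈ ExcSu P f g (Real.exp ((N : ℝ) ^ c δ))}.ncard : ℝ)) ≤ (N : ℝ) ^ (1 / 2 + δ) := by
  classical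
  obtain ⟨C₀, κ, H⟩ := su_exps P
  obtain ⟨s, hs⟩ : ∃ s, s = P.card := ⟨_, rfl⟩
  obtain ⟨K, hK⟩ : ∃ K, K = (κ + 1) * (6 + 3 * s) := ⟨_, rfl⟩
  refine ⟨fun δ => min δ 1 / (8 * (K + 1)), fun δ hδ => by positivity, ?_⟩
  intro f g hf hg hcop ε hε
  obtain ⟨M, Pm, G, hM, hG, hGc, hgood⟩ := good_classes f g hf hg ε hε
  obtain ⟨r₀, hr₀⟩ := ls_mod hf hcop
  refine ⟨M, G, hM, hG, hGc, fun δ' hδ' => ?_⟩
  obtain ⟨δ, hδdef⟩ : ∃ δ, δ = min δ' 1 := ⟨_, rfl⟩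
  have hδ : 0 < δ := by rw [hδdef]; positivity
  have hδ1 : δ ≤ 1 := by rw [hδdef]; exact min_le_right _ _
  have hδδ : δ ≤ δ' := by rw [hδdef]; exact min_le_left _ _
  simp only [← hδdef]
  have hg0 : g ≠ 0 := by rintro rfl; simp at hg
  obtain ⟨D, hD⟩ : ∃ D, D = f.natDegree + g.natDegree := ⟨_, rfl⟩
  obtain ⟨q₀, hq₀⟩ : ∃ q₀, q₀ = P.sup id := ⟨_, rfl⟩
  have hPq : ∀ q ∈ P, q ≤ q₀ := fun q hq => by rw [hq₀]; exact Finset.le_sup (f := id) hq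
  obtain ⟨c₀, hc₀⟩ : ∃ c₀, c₀ = Pm + ht f + ht g + D + 3 + q₀ := ⟨_, rfl⟩
  obtain ⟨Y₀, hY₀⟩ : ∃ Y₀, Y₀ = (C₀ + 8) * (s + 2) := ⟨_, rfl⟩
  obtain ⟨L₁, hL₁⟩ := small_par (81 * Y₀ ^ (6 + 3 * s)) K c₀ hδ
  obtain ⟨L₃, hL₃⟩ := aux_prime δ hδ (r₀ + q₀)
  refine ⟨L₁ + L₃ + 2, fun N hN => ?_⟩
  obtain ⟨x, r, hr, hx, hx16, hx2, hxr, hr4, hr₀r, hxh⟩ := hL₃ N (by omega)
  obtain ⟨T, hT1, hTY, hW, hp1⟩ := hL₁ N (by omega)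
  have hN1 : 1 ≤ N := by omega
  have hN1R : (1 : ℝ) ≤ N := by exact_mod_cast hN1
  obtain ⟨Y, hY⟩ : ∃ Y, Y = Nat.log 2 N + 1 := ⟨_, rfl⟩
  rw [← hY] at hTY
  have hY1 : 1 ≤ Y := by omega
  have hNY : N ≤ 2 ^ Y := by rw [hY]; exact (Nat.lt_pow_succ_log_self (by norm_num) N).le
  have hc₀T : c₀ ≤ T := (Nat.le_mul_of_pos_right _ hY1).trans hTY
  obtain ⟨B, hB⟩ : ∃ B, B = C₀ * T ^ κ + 7 := ⟨_, rfl⟩
  obtain ⟨S, hS⟩ : ∃ S, S = T * B * P.card + T := ⟨_, rfl⟩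
  obtain ⟨Z, hZ⟩ : ∃ Z, Z = Y₀ * T ^ (κ + 1) := ⟨_, rfl⟩
  have hTκ : 1 ≤ T ^ κ := Nat.one_le_pow _ _ hT1
  have hTκ1 : T ^ κ ≤ T ^ (κ + 1) := Nat.pow_le_pow_right hT1 (by omega)
  have hTT : T ≤ T ^ (κ + 1) := Nat.le_self_pow (by omega) T
  have hBT : B + 1 ≤ (C₀ + 8) * T ^ κ := by
    rw [hB, add_mul]
    have : 8 ≤ 8 * T ^ κ := by omega
    omega
  have hBZ : B + 1 ≤ Z := by
    calc B + 1 ≤ (C₀ + 8) * T ^ κ := hBT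
      _ ≤ (C₀ + 8) * T ^ (κ + 1) := Nat.mul_le_mul_left _ hTκ1
      _ ≤ (C₀ + 8) * (s + 2) * T ^ (κ + 1) :=
          Nat.mul_le_mul_right _ (Nat.le_mul_of_pos_right _ (by omega))
      _ = Z := by rw [hZ, hY₀]
  have hSZ : S ≤ Z := by
    have e1 : T * B ≤ (C₀ + 8) * T ^ (κ + 1) := by
      calc T * B ≤ T * ((C₀ + 8) * T ^ κ) := Nat.mul_le_mul_left _ (by omega)
        _ = _ := by rw [pow_succ]; ring
    have e2 : T ≤ (C₀ + 8) * T ^ (κ + 1) := hTT.trans (Nat.le_mul_of_pos_left _ (by omega))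
    calc S = T * B * s + T := by rw [hS, hs]
      _ ≤ (C₀ + 8) * T ^ (κ + 1) * s + (C₀ + 8) * T ^ (κ + 1) :=
          Nat.add_le_add (Nat.mul_le_mul_right _ e1) e2
      _ ≤ (C₀ + 8) * T ^ (κ + 1) * s + (C₀ + 8) * T ^ (κ + 1) * 2 := by omega
      _ = Z := by rw [hZ, hY₀]; ring
  have hDZ : D ≤ Z := by
    have e2 : T ≤ (C₀ + 8) * T ^ (κ + 1) := hTT.trans (Nat.le_mul_of_pos_left _ (by omega))
    have e3 : (C₀ + 8) * T ^ (κ + 1) ≤ Z := by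
      rw [hZ, hY₀]
      exact Nat.mul_le_mul_right _ (Nat.le_mul_of_pos_right _ (by omega))
    omega
  have hZ81 : 81 * Z ^ (6 + 3 * s) = 81 * Y₀ ^ (6 + 3 * s) * T ^ K := by
    rw [hZ, mul_pow, ← pow_mul, hK, mul_assoc]
  rw [← hZ81] at hp1
  have hp2 : ((81 * Z ^ (6 + 3 * s) : ℕ) : ℝ) ≤ (N : ℝ) ^ (1 / 2 : ℝ) :=
    hp1.trans (Real.rpow_le_rpow_of_exponent_le hN1R (by linarith))
  have hBr : B < r := by
    have h1 : B + 1 ≤ 81 * Z ^ (6 + 3 * s) := by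
      have e1 : Z ≤ Z ^ (6 + 3 * s) := Nat.le_self_pow (by omega) Z
      omega
    have h2 : ((B + 1 : ℕ) : ℝ) ≤ ((81 * Z ^ (6 + 3 * s) : ℕ) : ℝ) := by exact_mod_cast h1
    push_cast at h2 hp2
    have h3 : (B : ℝ) < r := by linarith
    exact_mod_cast h3
  have hbig := hbig_of (S := S) hx16 hx2 hxr hN1
  have hval : ∀ (F : ℤ[X]), F.natDegree ≤ D → ht F ≤ ht f + ht g → ∀ n : ℕ,
      1 ≤ n → n ≤ N → (F.eval (n : ℤ)).natAbs ≤ 2 ^ T := by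
    intro F hFD hFh n h1 h2
    refine (eval_bound F hFD h1 (h2.trans hNY)).trans (Nat.pow_le_pow_right (by norm_num) ?_)
    calc ht F + D * Y ≤ (ht f + ht g) * Y + D * Y :=
          Nat.add_le_add_right (hFh.trans (Nat.le_mul_of_pos_right _ hY1)) _
      _ = (ht f + ht g + D) * Y := by ring
      _ ≤ c₀ * Y := Nat.mul_le_mul_right _ (by omega)
      _ ≤ T := hTY
  obtain ⟨A, hA⟩ : ∃ A : Finset ℕ, A = (Icc 1 N).filter (fun n : ℕ => ∃ e ∈ Ind P B, ∃ w : ℤ,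
      |w| ≤ ((2 ^ S : ℕ) : ℤ) ∧ w ^ e.1.2.2 =
        (LS f g e.1.1 e.1.2.1 e.1.2.2 e.2.1 e.2.2.1 e.2.2.2).eval (n : ℤ)) := ⟨_, rfl⟩
  have hAc := count_su (D := D) (P := P) hf hg0 hcop (by omega) (by omega) hr hBr
    (fun q hq => by have := hPq q hq; omega)
    (fun l m k a b c => hr₀ r hr (by omega) l m k a b c) hN1 hbig A (by
      intro n hn
      rw [hA, mem_filter, mem_Icc] at hn
      exact ⟨hn.1.1, hn.1.2, hn.2⟩)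
  obtain ⟨hsf, hsf'⟩ := small_values f hf
  obtain ⟨hsg, hsg'⟩ := small_values g hg
  obtain ⟨cc, hcc⟩ : ∃ cc : ℝ, cc = δ / (8 * (K + 1)) := ⟨_, rfl⟩
  rw [← hcc] at hW ⊢
  have hsub : {n : ℕ | 1 ≤ n ∧ n ≤ N ∧ n % M ∈ G ∧
      n ∈ ExcSu P f g (Real.exp ((N : ℝ) ^ cc))} ⊆
      ({n : ℕ | (f.eval (n : ℤ)).natAbs ≤ 1} ∪ {n : ℕ | (g.eval (n : ℤ)).natAbs ≤ 1}) ∪
          (A : Set ℕ) := by
    rintro n ⟨hn1, hnN, hnG, hn⟩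
    refine Or.inr ?_
    obtain ⟨⟨p', hp', hp'2, hp'P, hpf⟩, ⟨p, hp, hp2, hpP, hpg⟩⟩ := hgood n hnG
    rw [mem_coe, hA, mem_filter, mem_Icc]
    exact ⟨⟨hn1, hnN⟩, mem_eq H hT1 (fun q hq => by have := hPq q hq; omega) hB hS hW hn
      (hval f (by omega) (by omega) n hn1 hnN)
      (hval g (by omega) (by omega) n hn1 hnN) ⟨p', hp', by omega, hpf⟩ ⟨p, hp, by omega, hpg⟩⟩
  have hcard : {n : ℕ | 1 ≤ n ∧ n ≤ N ∧ n % M ∈ G ∧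
      n ∈ ExcSu P f g (Real.exp ((N : ℝ) ^ cc))}.ncard ≤
      3 * D + ((B + 1) ^ 3 * (2 * (B + 1) ^ s) ^ 3) *
        (B * D * (N / r + 1) + r * (B * (B * S + B * D))) := by
    refine (Set.ncard_le_ncard hsub ((hsf.union hsg).union (Finset.finite_toSet _))).trans ?_
    refine (Set.ncard_union_le _ _).trans (Nat.add_le_add ?_ (by
      rw [Set.ncard_coe_finset, hs]; exact hAc))
    refine (Set.ncard_union_le _ _).trans ((Nat.add_le_add hsf' hsg').trans ?_)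
    rw [hD]; omega
  have hfin := final_su (B := B) (D := D) (S := S) (Z := Z) (N := N) (s := s) hBZ hSZ hDZ hx16 hx2
    hxr hr4
  have hNpos : (0 : ℝ) < N := by exact_mod_cast hN1
  calc (({n : ℕ | 1 ≤ n ∧ n ≤ N ∧ n % M ∈ G ∧
          n ∈ ExcSu P f g (Real.exp ((N : ℝ) ^ cc))}.ncard : ℝ))
      ≤ ((3 * D + ((B + 1) ^ 3 * (2 * (B + 1) ^ s) ^ 3) * (B * D * (N / r + 1) +
        r * (B * (B * S + B * D))) : ℕ) : ℝ) := by exact_mod_cast hcard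
    _ ≤ x * ((81 * Z ^ (6 + 3 * s) : ℕ) : ℝ) := hfin
    _ ≤ x * (N : ℝ) ^ (δ / 2) := mul_le_mul_of_nonneg_left hp1 (by linarith)
    _ = (N : ℝ) ^ (1 / 2 + δ) := by
        rw [hx, ← Real.rpow_add hNpos]
        congr 1
        ring
    _ ≤ (N : ℝ) ^ (1 / 2 + δ') := Real.rpow_le_rpow_of_exponent_le hN1R (by linarith)

end Pool.Agent.TH888.W2
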