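import Pool.Agent.TH888.W2.Core2

/-!
Discrete logarithms to the base `ω = exp(16)` modulo `2^(E+4)` (adaptation of helper907's
`TH907.Bak.Dlog` to the prime `2`).
-/

namespace Pool.Agent.TH888.W2

open Finset

variable {p : ℕ} [hp : Fact p.Prime]

theorem orderOf_omega (hp2 : p = 2) {K : ℕ} (hK : 2 ≤ K) (E : ℕ) :
    orderOf (PadicInt.toZModPow (E + 4) (EE p K 1)) = p ^ E := by
  obtain ⟨y, hy⟩ := EE_one_spec (p := p) hp2 hK
  have : NeZero (p ^ (E + 4)) := ⟨pow_ne_zero _ hp.out.ne_zero⟩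
  set v : ℕ := (PadicInt.toZModPow (E + 4) y).val with hv
  have h1 : PadicInt.toZModPow (E + 4) y = (v : ZMod (p ^ (E + 4))) := by
    rw [hv, ZMod.natCast_zmod_val]
  have h2 : PadicInt.toZModPow (E + 4) (EE p K 1)
      = 1 + (p : ZMod (p ^ (E + 4))) ^ 4 * ((1 + p * v : ℤ) : ZMod (p ^ (E + 4))) := by
    rw [hy]
    simp only [map_add, map_mul, map_pow, map_one, map_natCast, h1]
    push_cast
    ring
  rw [h2]
  apply ZMod.orderOf_one_add_mul_prime_pow hp.out 4 (by norm_num) (by omega)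
  intro hd
  have h3 : (p : ℤ) ∣ 1 := by
    have h4 : (p : ℤ) ∣ (p : ℤ) * v := dvd_mul_right _ _
    have := dvd_sub hd h4
    simpa using this
  have h5 := Int.natAbs_dvd_natAbs.2 h3
  simp at h5
  exact hp.out.one_lt.ne' h5

theorem exists_dlog (hp2 : p = 2) {K : ℕ} (hK : 2 ≤ K) (E : ℕ) {α : ℕ}
    (hα : ((p ^ 4 : ℕ) : ℤ) ∣ (α : ℤ) - 1) :
    ∃ a : ℕ, (α : ZMod (p ^ (E + 4))) = (PadicInt.toZModPow (E + 4) (EE p K 1)) ^ a := by
  classical
  have : NeZero (p ^ (E + 4)) := ⟨pow_ne_zero _ hp.out.ne_zero⟩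
  have hord := orderOf_omega (p := p) hp2 hK E
  obtain ⟨y, hy⟩ := EE_one_spec (p := p) hp2 hK
  have hform : ∃ z : ZMod (p ^ (E + 4)), PadicInt.toZModPow (E + 4) (EE p K 1) =
      1 + (p : ZMod (p ^ (E + 4))) ^ 4 * z := by
    refine ⟨1 + p * PadicInt.toZModPow (E + 4) y, ?_⟩
    rw [hy]
    simp only [map_add, map_mul, map_pow, map_one, map_natCast]
    ring
  set ω := PadicInt.toZModPow (E + 4) (EE p K 1) with hω
  have hpE : 0 < p ^ E := pow_pos hp.out.pos _
  set s : Finset (ZMod (p ^ (E + 4))) :=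
    (range (p ^ E)).image (fun t : ℕ => 1 + (p : ZMod (p ^ (E + 4))) ^ 4 * (t : ZMod (p ^ (E + 4))))
    with hs
  have hsc : s.card ≤ p ^ E := by
    rw [hs]
    exact card_image_le.trans (le_of_eq (card_range _))
  have hmem : ∀ z : ZMod (p ^ (E + 4)), 1 + (p : ZMod (p ^ (E + 4))) ^ 4 * z ∈ s := by
    intro z
    rw [hs, mem_image]
    refine ⟨z.val % p ^ E, mem_range.2 (Nat.mod_lt _ hpE), ?_⟩
    have h1 : z = ((z.val : ℕ) : ZMod (p ^ (E + 4))) := (ZMod.natCast_zmod_val z).symm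
    have h2 : z = ((z.val % p ^ E : ℕ) : ZMod (p ^ (E + 4))) +
        (p : ZMod (p ^ (E + 4))) ^ E * ((z.val / p ^ E : ℕ) : ZMod (p ^ (E + 4))) := by
      conv_lhs => rw [h1, ← Nat.mod_add_div z.val (p ^ E)]
      push_cast
      ring
    have h3 : (p : ZMod (p ^ (E + 4))) ^ 4 * (p : ZMod (p ^ (E + 4))) ^ E = 0 := by
      rw [← pow_add, add_comm 4 E]
      exact_mod_cast ZMod.natCast_self (p ^ (E + 4))
    conv_rhs => rw [h2]
    rw [mul_add, ← mul_assoc, h3, zero_mul, add_zero]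
  have hpow : ∀ i : ℕ, ∃ z : ZMod (p ^ (E + 4)), ω ^ i = 1 + (p : ZMod (p ^ (E + 4))) ^ 4 * z := by
    obtain ⟨z₀, hz₀⟩ := hform
    intro i
    induction i with
    | zero => exact ⟨0, by simp⟩
    | succ i ih =>
      obtain ⟨z, hz⟩ := ih
      refine ⟨z + z₀ + (p : ZMod (p ^ (E + 4))) ^ 4 * z * z₀, ?_⟩
      rw [pow_succ ω i, hz, hz₀]
      ring
  set t : Finset (ZMod (p ^ (E + 4))) := (range (p ^ E)).image (fun i => ω ^ i) with ht
  have htc : t.card = p ^ E := by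
    rw [ht, Finset.card_image_of_injOn, card_range]
    intro i hi j hj hij
    rw [coe_range, Set.mem_Iio] at hi hj
    exact pow_injOn_Iio_orderOf (by rw [hord]; exact hi) (by rw [hord]; exact hj) hij
  have hts : t ⊆ s := by
    intro x hx
    rw [ht, mem_image] at hx
    obtain ⟨i, _, rfl⟩ := hx
    obtain ⟨z, hz⟩ := hpow i
    rw [hz]
    exact hmem z
  have hst : t = s := Finset.eq_of_subset_of_card_le hts (by rw [htc]; exact hsc)
  have hαs : (α : ZMod (p ^ (E + 4))) ∈ t := by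
    rw [hst]
    obtain ⟨c, hc⟩ := hα
    have h1 : (α : ZMod (p ^ (E + 4))) = 1 + (p : ZMod (p ^ (E + 4))) ^ 4 * (c : ZMod (p ^ (E + 4))) := by
      have h2 : (α : ℤ) = 1 + ((p ^ 4 : ℕ) : ℤ) * c := by linarith
      have h3 := congrArg (fun z : ℤ => (z : ZMod (p ^ (E + 4)))) h2
      push_cast at h3
      exact h3
    rw [h1]
    exact hmem _
  rw [ht, mem_image] at hαs
  obtain ⟨i, _, hi⟩ := hαs
  exact ⟨i, hi.symm⟩

/-- A multiplicative relation gives a linear relation between discrete logarithms. -/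
theorem rel_dlog (hp2 : p = 2) {K : ℕ} (hK : 2 ≤ K) {E n : ℕ} (u : Fin n → (ZMod (p ^ (E + 4)))ˣ)
    (a : Fin n → ℕ) (b : Fin n → ℤ)
    (ha : ∀ i, (u i : ZMod (p ^ (E + 4))) = (PadicInt.toZModPow (E + 4) (EE p K 1)) ^ (a i))
    (hrel : ∏ i, (u i) ^ (b i) = 1) : (p : ℤ) ^ E ∣ ∑ i, b i * a i := by
  have hord := orderOf_omega (p := p) hp2 hK E
  set ω := PadicInt.toZModPow (E + 4) (EE p K 1) with hω
  have hpE : 0 < p ^ E := pow_pos hp.out.pos _
  have hω1 : ω ^ (p ^ E) = 1 := by rw [← hord]; exact pow_orderOf_eq_one ω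
  have hωu : IsUnit ω := IsUnit.of_pow_eq_one hω1 hpE.ne'
  obtain ⟨w, hw⟩ := hωu
  have hordw : orderOf w = p ^ E := by
    rw [← hord, ← hw]
    exact (orderOf_units).symm
  have huw : ∀ i, u i = w ^ (a i) := by
    intro i
    apply Units.ext
    rw [ha i, Units.val_pow_eq_pow_val, hw]
  have h1 : w ^ (∑ i, b i * a i) = 1 := by
    rw [← hrel]
    have : ∀ s : Finset (Fin n), w ^ (∑ i ∈ s, b i * (a i : ℤ)) = ∏ i ∈ s, (u i) ^ (b i) := by
      intro s
      classical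
      induction s using Finset.induction_on with
      | empty => simp
      | insert i s hi ih =>
        rw [Finset.sum_insert hi, Finset.prod_insert hi, zpow_add, ih, huw i]
        congr 1
        rw [← zpow_natCast, ← zpow_mul, mul_comm]
    exact this univ
  rw [← orderOf_dvd_iff_zpow_eq_one, hordw] at h1
  exact_mod_cast h1

end Pool.Agent.TH888.W2
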