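import Pool.Agent.TH888.W2.Exp2

/-!
Adaptation of helper907's `TH907.Bak.Schwarz` to the prime `2`.
-/

namespace Pool.Agent.TH888.W2

open Finset Polynomial
open Pool.Agent.TH907.Bak (dvd_of_natCast_mul WW WW_monic WW_natDegree WW_map crt toZModPow_eq_zero_iff)

variable {p : ℕ} [hp : Fact p.Prime]

theorem val_prod_factorial (hp2 : p = 2) (T Z : ℕ) :
    padicValNat p (∏ z ∈ range Z, (z.factorial) ^ (2 * T)) ≤ T * Z ^ 2 := by
  induction Z with
  | zero => simp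
  | succ Z ih =>
    rw [Finset.prod_range_succ, padicValNat.mul, padicValNat.pow]
    · have h1 := val_factorial_le (p := p) hp2 Z
      have h2 : 2 * T * padicValNat p Z.factorial ≤ 2 * T * Z := Nat.mul_le_mul_left _ h1
      calc padicValNat p (∏ x ∈ range Z, x.factorial ^ (2 * T)) +
            2 * T * padicValNat p Z.factorial ≤ T * Z ^ 2 + 2 * T * Z := Nat.add_le_add ih h2
        _ ≤ T * (Z + 1) ^ 2 := by nlinarith
    · exact Finset.prod_ne_zero_iff.2 fun z _ => pow_ne_zero _ (Nat.factorial_ne_zero z)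
    · exact pow_ne_zero _ (Nat.factorial_ne_zero Z)

/-- Polynomial Schwarz lemma. -/
theorem schwarz (hp2 : p = 2) {F : ℤ_[p][X]} {T Z E d : ℕ}
    (hF : ∀ k, (p : ℤ_[p]) ^ ((k + 1) / 2) ∣ F.coeff k)
    (hZ : ∀ z < Z, (X - C (z : ZMod (p ^ E))) ^ T ∣ F.map (PadicInt.toZModPow E))
    (hd : 2 * d ≤ T * Z + 1) (hE : T * Z ^ 2 + d ≤ E) :
    ∀ k, (p : ℤ_[p]) ^ d ∣ F.coeff k := by
  rcases Nat.eq_zero_or_pos d with hd0 | hdpos
  · intro k; rw [hd0, pow_zero]; exact one_dvd _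
  have hp1 : 1 < p := hp.out.one_lt
  have : Fact (1 < p ^ E) := ⟨Nat.one_lt_pow (by omega) hp1⟩
  have : Fact (1 < p ^ d) := ⟨Nat.one_lt_pow (by omega) hp1⟩
  set n : ℕ := ∏ z ∈ range Z, (z.factorial) ^ (2 * T) with hn
  have hn0 : n ≠ 0 := Finset.prod_ne_zero_iff.2 fun z _ => pow_ne_zero _ (Nat.factorial_ne_zero z)
  have h1 : WW (ZMod (p ^ E)) T Z ∣ C (n : ZMod (p ^ E)) * F.map (PadicInt.toZModPow E) :=
    crt T _ Z hZ
  -- remainder
  set r : ℤ_[p][X] := F %ₘ WW ℤ_[p] T Z with hr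
  have hmon := WW_monic ℤ_[p] T Z
  have h2 : ((C (n : ℤ_[p]) * F) %ₘ WW ℤ_[p] T Z).map (PadicInt.toZModPow E) = 0 := by
    rw [Polynomial.map_modByMonic _ hmon, WW_map,
      (modByMonic_eq_zero_iff_dvd (WW_monic _ _ _))]
    simpa using h1
  have h3 : (C (n : ℤ_[p]) * F) %ₘ WW ℤ_[p] T Z = C (n : ℤ_[p]) * r := by
    rw [hr, ← smul_eq_C_mul, ← smul_eq_C_mul, smul_modByMonic]
  have h4 : ∀ k, (p : ℤ_[p]) ^ d ∣ r.coeff k := by
    intro k
    have h5 : PadicInt.toZModPow E ((C (n : ℤ_[p]) * r).coeff k) = 0 := by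
      rw [← Polynomial.coeff_map, ← h3, h2, coeff_zero]
    rw [toZModPow_eq_zero_iff, coeff_C_mul] at h5
    have h6 := dvd_of_natCast_mul hn0 (val_prod_factorial hp2 T Z) h5
    exact (pow_dvd_pow _ (by omega)).trans h6
  -- modulo `p^d` the polynomial has small degree
  have h7 : (F.map (PadicInt.toZModPow d)).degree < (WW (ZMod (p ^ d)) T Z).degree := by
    rw [degree_eq_natDegree (WW_monic _ _ _).ne_zero, WW_natDegree]
    rw [degree_lt_iff_coeff_zero]
    intro m hm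
    rw [Polynomial.coeff_map, toZModPow_eq_zero_iff]
    exact (pow_dvd_pow _ (by omega)).trans (hF m)
  have h8 : F.map (PadicInt.toZModPow d) = r.map (PadicInt.toZModPow d) := by
    rw [hr, Polynomial.map_modByMonic _ hmon, WW_map]
    exact ((modByMonic_eq_self_iff (WW_monic _ _ _)).2 h7).symm
  intro k
  rw [← toZModPow_eq_zero_iff, ← Polynomial.coeff_map, h8, Polynomial.coeff_map,
    toZModPow_eq_zero_iff]
  exact h4 k

end Pool.Agent.TH888.W2
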