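import Pool.Agent.TH888.W2.Extra2

/-!
One step of the iteration (adaptation of helper907's `TH907.Bak.Siegel` to the prime `2`).
-/

namespace Pool.Agent.TH888.W2

open Finset
open Pool.Agent.TH907.Bak (GG GG_zero_of_mono abs_GG_mono_le)

variable {ι : Type*} [Fintype ι] {k : ℕ}

variable {p : ℕ} [hp : Fact p.Prime]

/-- One step of the iteration. -/
theorem step (hp2 : p = 2) {K E T Z Z' d N π Δ Xs : ℕ} (P : ι → ℤ) (δ : ι → Fin k → ℤ) (x : ι → ℤ)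
    (A : ι → ℕ) (a : Fin k → ℤ) (β : ℤ) (hβ : ¬ (p : ℤ) ∣ β) (hK : 2 * E ≤ K) (hK0 : 0 < K)
    (hx : ∀ l, (x l : ZMod (p ^ E)) = (PadicInt.toZModPow E (EE p K 1)) ^ (A l))
    (hA : ∀ l, ((p : ℤ) ^ E) ∣ β * A l - ∑ i, a i * δ l i)
    (H : ∀ Q : MvPolynomial (Fin k) ℤ, Q.totalDegree < 2 * T → ∀ z < Z, GG P δ x Q z = 0)
    (hd : 2 * d ≤ T * Z + 1) (hE : T * Z ^ 2 + d ≤ E)
    (hN : Fintype.card ι ≤ 2 ^ N) (hP : ∀ l, |P l| ≤ 2 ^ π) (hδ : ∀ l i, |δ l i| ≤ 2 ^ Δ)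
    (hxs : ∀ l, |x l| ≤ 2 ^ Xs) (hXs : 0 < Xs) (hdb : N + π + Δ * T + Xs * Z' ≤ d) :
    ∀ Q : MvPolynomial (Fin k) ℤ, Q.totalDegree < T → ∀ z < Z', GG P δ x Q z = 0 := by
  intro Q hQ z hz
  apply GG_zero_of_mono P δ x (T := T) _ Q hQ
  intro m hm
  have hdeg : (MvPolynomial.monomial m (1 : ℤ)).totalDegree < T := by
    rw [MvPolynomial.totalDegree_monomial _ one_ne_zero]
    exact hm
  have h1 := extra hp2 P δ x A a β hβ hK hK0 hx hA H hd hE _ hdeg z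
  have h2 := abs_GG_mono_le P δ x hN hP hδ hxs m hm.le z
  have h3 : (2 : ℤ) ^ (N + π + Δ * T + Xs * z) < 2 ^ d := by
    apply pow_lt_pow_right₀ (by norm_num)
    have : Xs * z < Xs * Z' := Nat.mul_lt_mul_of_pos_left hz hXs
    omega
  have h4 : (p : ℤ) ^ d = 2 ^ d := by rw [hp2]; rfl
  by_contra hne
  have h5 := Int.le_of_dvd (abs_pos.2 hne) ((dvd_abs _ _).2 h1)
  rw [h4] at h5
  linarith

end Pool.Agent.TH888.W2
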